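import Pool.Agent.H.MP_fe081e_lc.Defs

namespace Pool.Agent.H.MP_fe081e_lc

open Finset SimpleGraph Relation Classical

variable {V : Type} [Fintype V] {G T : SimpleGraph V} {c u v w p x : V} {k : ℕ}

noncomputable def nb (G : SimpleGraph V) (B : Finset V) (u : V) : ℕ := #(B.filter (G.Adj u))
noncomputable def ed (G : SimpleGraph V) (A B : Finset V) : ℕ := ∑ u ∈ A, nb G B u

theorem ed_comm (A B : Finset V) : ed G A B = ed G B A := by
  simp only [ed, nb, card_filter]; rw [sum_comm]; simp only [G.adj_comm]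

theorem cng_eq {S : Finset V} (h : Side T u v = S) : cng G T u v = ed G S Sᶜ := by
  have : ed G S Sᶜ = #((S ×ˢ Sᶜ).filter fun p => G.Adj p.1 p.2) := by simp only [ed, nb, card_filter, sum_product]
  rw [this, cng, h, ← card_image_of_injOn (f := fun p : V × V => s(p.1, p.2)), ← Set.ncard_coe_finset]
  · congr 1; ext e
    simp only [Set.mem_setOf_eq, coe_image, coe_filter, mem_product, mem_compl, Set.mem_image, Prod.exists, mem_coe]
    exact ⟨fun ⟨a, x, y, b, d⟩ => ⟨x, y, ⟨d, by rwa [b] at a⟩, b.symm⟩, fun ⟨x, y, a, b⟩ => ⟨b ▸ a.2, x, y, b.symm, a.1⟩⟩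
  · rintro ⟨a, b⟩ i ⟨d, e⟩ j l
    simp only [coe_filter, mem_product, mem_compl, Set.mem_setOf_eq, Sym2.eq_iff] at i j l
    obtain ⟨rfl, rfl⟩ | ⟨rfl, rfl⟩ := l
    exacts [rfl, (i.1.2 j.1.1).elim]

theorem ec_le : ec G T ≤ k ↔ ∀ u v, T.Adj u v → cng G T u v ≤ k :=
  (ciSup_le_iff' (Set.finite_range _).bddAbove).trans ⟨fun h u v e => h ⟨(u, v), e⟩, fun h d => h _ _ d.adj⟩

def Av (T : SimpleGraph V) (c : V) := ReflTransGen fun a b => T.Adj a b ∧ a ≠ c ∧ b ≠ c

theorem Av.symm (h : Av T c u v) : Av T c v u := by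
  induction h with
  | refl => exact .refl
  | tail _ f ih => exact ih.head ⟨f.1.symm, f.2.2, f.2.1⟩

theorem Av.ne (h : Av T c u v) (e : u ≠ c) : v ≠ c := by
  induction h with
  | refl => exact e
  | tail _ f _ => exact f.2.2

theorem Av.reach (h : Av T c u v) {e : Sym2 V} (k : c ∈ e) : (T.deleteEdges {e}).Reachable u v := by
  induction h with
  | refl => rfl
  | tail _ f ih =>
    refine ih.trans (Adj.reachable ?_)
    simp only [deleteEdges_adj, f.1, Set.mem_singleton_iff, true_and]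
    rintro rfl
    simp [f.2.1.symm, f.2.2.symm] at k

theorem top (h : T.Connected) (e : v ≠ c) : ∃ p, T.Adj c p ∧ Av T c v p := by
  have := (reachable_iff_reflTransGen ..).1 (h v c)
  induction this using ReflTransGen.head_induction_on with
  | refl => exact (e rfl).elim
  | @head a b f _ ih =>
    by_cases g : b = c
    · exact ⟨a, g ▸ f.symm, .refl⟩
    · exact (ih g).imp fun p i => ⟨i.1, i.2.head ⟨f, e, g⟩⟩

theorem bridge (h : T.IsTree) (e : T.Adj c p) : ¬ (T.deleteEdges {s(c, p)}).Reachable c p :=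
  isAcyclic_iff_forall_isBridge.1 h.isAcyclic (e := s(c, p)) e

theorem side_eq (h : T.IsTree) (e : T.Adj c p) : Side T c p = {x | Av T c p x} := by
  refine Set.ext fun x => ⟨fun f => ?_, fun f => f.reach (by simp)⟩
  have := (reachable_iff_reflTransGen ..).1 f
  clear f
  induction this with
  | refl => exact .refl
  | @tail a b f g ih =>
    refine ih.tail ⟨(deleteEdges_adj.1 g).1, ih.ne e.ne', ?_⟩
    rintro rfl
    exact bridge h e ((reachable_iff_reflTransGen ..).2 (f.tail g)).symm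

structure Br (G : SimpleGraph V) (k : ℕ) (c : V) (B : V → Finset V) : Prop where
  mem : ∀ v, v ∈ B v
  nc : ∀ v ≠ c, c ∉ B v
  eq : ∀ v, ∀ w ∈ B v, B w = B v
  cut : ∀ v ≠ c, ed G (B v) (B v)ᶜ ≤ k
  con : ∀ v ≠ c, ∀ P : V → Prop, (∀ x ∈ B v, G.Adj c x → P x) → (∀ x ∈ B v, ∀ y ∈ B v, G.Adj x y → P x → P y) →
    ∀ x ∈ B v, P x
  top : ∀ v ≠ c, ∃ p ∈ B v, G.Adj c p

noncomputable def brn (T : SimpleGraph V) (c v : V) : Finset V := univ.filter (Av T c v)

theorem mem_brn : x ∈ brn T c v ↔ Av T c v x := by simp [brn]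

theorem brn_eq (h : Av T c v w) : brn T c w = brn T c v :=
  Finset.ext fun _ => by rw [mem_brn, mem_brn]; exact ⟨h.trans, h.symm.trans⟩

theorem SpTree.br (h : SpTree G T) (e : ec G T ≤ k) (c : V) : Br G k c (brn T c) := by
  refine ⟨fun v => mem_brn.2 .refl, fun v f g => (mem_brn.1 g).ne f rfl, fun v w f => brn_eq (mem_brn.1 f),
    fun v f => ?_, fun v f P a b x g => ?_, fun v f => (top h.2.1 f).imp fun p i => ⟨mem_brn.2 i.2, h.1 i.1⟩⟩
  · obtain ⟨p, i, j⟩ := top h.2.1 f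
    rw [← brn_eq j, ← cng_eq (T := T) (by rw [side_eq h.2 i]; ext; simp [mem_brn])]
    exact ec_le.1 e _ _ i
  · obtain ⟨p, i, j⟩ := top h.2.1 f
    replace g := j.symm.trans (mem_brn.1 g)
    induction g with
    | refl => exact a p (mem_brn.2 j) (h.1 i)
    | tail l m ih => exact b _ (mem_brn.2 (j.trans l)) _ (mem_brn.2 (j.trans (l.tail m))) (h.1 m.1) ih

theorem centroid (h : T.IsTree) (μ : V → ℕ) : ∃ c, ∀ v ≠ c, 2 * ∑ x ∈ brn T c v, μ x ≤ ∑ x, μ x := by
  by_contra n
  push Not at n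
  obtain ⟨c0⟩ := h.1.nonempty
  obtain ⟨⟨c, v⟩, a, m⟩ := exists_min_image (univ.filter fun z : V × V => z.2 ≠ z.1 ∧
    ∑ x, μ x < 2 * ∑ x ∈ brn T z.1 z.2, μ x) (fun z => #(brn T z.1 z.2)) ((n c0).elim fun v e => ⟨(c0, v), by simpa⟩)
  simp only [mem_filter, mem_univ, true_and, Prod.forall] at a m
  obtain ⟨p, i, j⟩ := top h.1 a.1
  rw [← brn_eq j] at a m
  obtain ⟨w, e, f⟩ := n p
  by_cases g : Av T p w c
  · have := sum_le_sum_of_subset (f := μ) (subset_univ (brn T p w ∪ brn T c p))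
    rw [sum_union (disjoint_left.2 fun x s t => bridge h i ((Av.reach (g.symm.trans (mem_brn.1 s)) (by simp)).trans
      ((mem_brn.1 t).reach (by simp)).symm))] at this
    omega
  obtain ⟨q, r, s⟩ := top h.1 e
  refine (m p w ⟨e, f⟩).not_gt (card_lt_card ⟨fun x t => mem_brn.2 ?_, fun t =>
    (mem_brn.1 (t (mem_brn.2 .refl))).ne e rfl⟩)
  replace t := s.symm.trans (mem_brn.1 t)
  induction t with
  | refl => exact .single ⟨r, i.ne', fun y => g (y ▸ s)⟩
  | tail l o ih => exact ih.tail ⟨o.1, ih.ne i.ne', fun y => g (y ▸ s.trans (l.tail o))⟩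

/-- trees of depth two -/
theorem depth2 (φ : V → V) (h : ∀ v ≠ c, G.Adj v (φ v) ∧ (φ v = c ∨ φ (φ v) = c))
    (hT : ∀ u v, T.Adj u v ↔ u ≠ c ∧ φ u = v ∨ v ≠ c ∧ φ v = u)
    (hk : ∀ v ≠ c, ed G (univ.filter fun x => x = v ∨ x ≠ c ∧ φ x = v) (univ.filter fun x => x = v ∨ x ≠ c ∧ φ x = v)ᶜ ≤ k) :
    SpTree G T ∧ ec G T ≤ k := by
  have s : ∀ v ≠ c, Side T (φ v) v = {x | x = v ∨ x ≠ c ∧ φ x = v} := fun v e => by
    refine Set.ext fun x => ⟨fun f => ?_, ?_⟩
    · have := (reachable_iff_reflTransGen ..).1 f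
      clear f
      induction this with
      | refl => exact .inl rfl
      | @tail a b _ g ih =>
        simp only [deleteEdges_adj, hT, Set.mem_singleton_iff, Sym2.eq_iff, Set.mem_setOf_eq] at g ih ⊢
        have := h b
        grind
    · rintro (rfl | ⟨f, rfl⟩)
      · exact Reachable.refl _
      · refine Adj.reachable ?_
        simp only [deleteEdges_adj, hT, Set.mem_singleton_iff, Sym2.eq_iff]
        have := h x f
        have := h _ e
        have := (h x f).1.ne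
        grind
  have n : ∀ v ≠ c, φ v ∉ Side T (φ v) v := fun v e => by
    have := h v e
    have := (h v e).1.ne
    simp only [s v e, Set.mem_setOf_eq]
    grind
  have r : ∀ x, T.Reachable x c := fun x => by
    by_cases e : x = c
    · rw [e]
    have a : T.Reachable x (φ x) := Adj.reachable ((hT ..).2 (.inl ⟨e, rfl⟩))
    by_cases f : φ x = c
    · rwa [f] at a
    · exact a.trans (Adj.reachable ((hT ..).2 (.inl ⟨f, (h x e).2.resolve_left f⟩)))
  refine ⟨⟨fun u v e => ((hT ..).1 e).elim (fun e => e.2 ▸ (h u e.1).1) fun e => e.2 ▸ (h v e.1).1.symm,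
    ⟨@Connected.mk _ _ (fun u v => (r u).trans (r v).symm) ⟨c⟩, isAcyclic_iff_forall_isBridge.2 fun e => ?_⟩⟩,
    ec_le.2 fun u v e0 => ?_⟩
  · induction e with
    | h u v =>
      intro e0
      obtain ⟨e, rfl⟩ | ⟨e, rfl⟩ := (hT u v).1 e0
      · exact fun f => n u e (by rwa [Sym2.eq_swap] at f)
      · exact fun f => n v e f.symm
  obtain ⟨e, rfl⟩ | ⟨e, rfl⟩ := (hT u v).1 e0
  swap
  · rw [cng_eq (S := univ.filter fun x => x = v ∨ x ≠ c ∧ φ x = v) (by simp [s v e])]; exact hk v e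
  rw [cng_eq (S := (univ.filter fun x => x = u ∨ x ≠ c ∧ φ x = u)ᶜ), compl_compl, ed_comm]
  · exact hk u e
  have t : ∀ x, x ∈ Side T (φ u) u ∨ x ∈ Side T u (φ u) := fun x => by
    have := (reachable_iff_reflTransGen ..).1 ((r u).trans (r x).symm)
    simp only [Side, Set.mem_setOf_eq, Sym2.eq_swap (a := u)]
    induction this with
    | refl => exact .inl (.refl _)
    | @tail a b _ g ih =>
      by_cases y : s(a, b) = s(φ u, u)
      · obtain ⟨-, rfl⟩ | ⟨-, rfl⟩ := Sym2.eq_iff.1 y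
        exacts [.inl (.refl _), .inr (.refl _)]
      · exact ih.imp (·.trans (Adj.reachable (by simpa [g] using y))) (·.trans (Adj.reachable (by simpa [g] using y)))
  ext x
  simp only [coe_compl, coe_filter, mem_univ, true_and, ← s u e, Set.mem_compl_iff]
  refine ⟨fun f g => n u e (g.trans ?_), (t x).resolve_left⟩
  simpa only [Side, Sym2.eq_swap (a := u)] using f.symm

end Pool.Agent.H.MP_fe081e_lc
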