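import Pool.Agent.H.MP_fe081e_lc.A

namespace Pool.Agent.H.MP_fe081e_lc

open Finset SimpleGraph Classical

variable {V : Type} [Fintype V] {G : SimpleGraph V} {a b c u v w p : V} {k : ℕ} {S X Z P : Finset V}

noncomputable abbrev dg (G : SimpleGraph V) (v : V) : ℕ := nb G univ v
def Cmp (G : SimpleGraph V) (X : Finset V) : Prop := ∀ a ∈ X, ∀ b ∉ X, G.Adj a b

theorem Cmp.co (h : Cmp G X) : Cmp G Xᶜ := fun a e b f => (h b (by simpa using f) a (by simpa using e)).symm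

theorem nb_lt (h : u ∈ Z) : nb G Z u + 1 ≤ #Z :=
  card_lt_card ⟨filter_subset _ _, fun e => G.irrefl (mem_filter.1 (e h)).2⟩

theorem nb_split (S Z : Finset V) (u : V) : nb G Z u = nb G (S ∩ Z) u + nb G (Z \ S) u := by
  unfold nb
  rw [← card_union_of_disjoint (disjoint_filter_filter (by rw [inter_comm]; exact disjoint_inf_sdiff)), ← filter_union]
  congr 2; ext; simp; tauto

theorem in_le (h : P ⊆ S ∩ Z) : ∑ a ∈ P, (nb G Z a + 1) ≤ #P * #(S ∩ Z) + ed G (S ∩ Z) (Z \ S) := by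
  refine (sum_le_sum (g := fun a => #(S ∩ Z) + nb G (Z \ S) a) fun a e => ?_).trans ?_
  · have := nb_lt (G := G) (h e); rw [nb_split S]; omega
  · rw [sum_add_distrib, sum_const, smul_eq_mul]; exact Nat.add_le_add_left (sum_le_sum_of_subset h) _

theorem in_le1 (h : a ∈ S ∩ Z) : nb G Z a + 1 ≤ #(S ∩ Z) + ed G (S ∩ Z) (Z \ S) := by
  simpa using in_le (G := G) (singleton_subset_iff.2 h)

theorem out_le (h : a ∈ Z \ S) : nb G Z a + 1 ≤ #(Z \ S) + ed G (S ∩ Z) (Z \ S) := by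
  have := nb_lt (G := G) h
  have := single_le_sum (f := nb G (S ∩ Z)) (fun _ _ => Nat.zero_le _) h
  rw [nb_split S, ed_comm, ed]; omega

theorem nb_full (h : ∀ b ∈ Z, G.Adj a b) : nb G Z a = #Z := congrArg card (filter_true_of_mem h)

theorem Cmp.dg (h : Cmp G X) (e : a ∈ X) : dg G a = #Xᶜ + nb G X a := by
  rw [MP_fe081e_lc.dg, nb_split X, inter_univ, ← compl_eq_univ_sdiff, nb_full (Z := Xᶜ) fun b f => h a e b (by simpa using f),
    add_comm]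

theorem Cmp.half (h : Cmp G X) : ed G (S ∩ X) Sᶜ = #(S ∩ X) * #(Xᶜ \ S) + ed G (S ∩ X) (X \ S) := by
  rw [ed, ed, ← smul_eq_mul, ← sum_const, ← sum_add_distrib]
  refine sum_congr rfl fun a e => ?_
  rw [nb_split X, nb_full (Z := Sᶜ \ X) fun b f => h a (mem_inter.1 e).2 b (mem_sdiff.1 f).2, add_comm]
  congr 2 <;> ext <;> simp <;> tauto

theorem Cmp.cut (h : Cmp G X) : ed G S Sᶜ = #(S ∩ X) * #(Xᶜ \ S) + #(S ∩ Xᶜ) * #(X \ S) + ed G (S ∩ X) (X \ S) +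
    ed G (S ∩ Xᶜ) (Xᶜ \ S) := by
  have := h.co.half (S := S)
  rw [compl_compl] at this
  have e : ed G S Sᶜ = ed G (S ∩ X) Sᶜ + ed G (S ∩ Xᶜ) Sᶜ := by
    rw [ed, ed, ed, ← sum_union (disjoint_left.2 fun x e f => by simp_all), ← inter_union_distrib_left, union_compl,
      inter_univ]
  rw [e, h.half, this]; ring

theorem sp_card (S Z : Finset V) : #(S ∩ Z) + #(Z \ S) = #Z := by rw [inter_comm]; exact card_inter_add_card_sdiff ..

def Mt (G : SimpleGraph V) (k : ℕ) (c w p : V) : Prop := G.Adj c p ∧ G.Adj w p ∧ dg G w + dg G p ≤ k + 2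
def Sp (G : SimpleGraph V) (k : ℕ) (c : V) : Prop := (∀ v ≠ c, dg G v ≤ k) ∧
  ∃ φ : V → V, Set.InjOn φ {w | w ≠ c ∧ ¬ G.Adj c w} ∧ ∀ w ≠ c, ¬ G.Adj c w → Mt G k c w (φ w)

theorem sc (hu : ∀ v, dg G v + 2 ≤ Fintype.card V) (h : dg G u + 2 = Fintype.card V) (e : w ≠ u) (f : ¬ G.Adj u w)
    (g : G.Adj w p) (l : dg G w + dg G p ≤ k + 2) (m : Fintype.card V ≤ k + 2) : Sp G k u := by
  have z : ∀ v ≠ u, ¬ G.Adj u v → v = w := fun v i j => by_contra fun n => by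
    have := card_le_card (s := insert u (insert w (insert v (univ.filter (G.Adj u))))) (subset_univ _)
    rw [card_insert_of_notMem (by simp [e.symm, i.symm]), card_insert_of_notMem (by simp [f, Ne.symm n]),
      card_insert_of_notMem (by simp [j]), card_univ] at this
    unfold dg nb at h
    omega
  refine ⟨fun v _ => by have := hu v; omega, fun _ => p, fun x i y j _ => (z x i.1 i.2).trans (z y j.1 j.2).symm,
    fun v i j => z v i j ▸ ⟨by_contra fun n => g.ne (z p (fun r => f (r ▸ g.symm)) n).symm, g, l⟩⟩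

theorem ml0 {I K O : Finset V} {R : V → V → Prop} (o : V → V) (h : Set.InjOn o O) (h1 : ∀ i ∈ O, o i ∈ K ∧ R i (o i))
    (h2 : ∀ i ∈ I \ O, ∀ p ∈ K \ O.image o, R i p) (h3 : O ⊆ I) (h4 : #I ≤ #K) :
    ∃ φ : V → V, Set.InjOn φ I ∧ ∀ i ∈ I, φ i ∈ K ∧ R i (φ i) := by
  have : #(I \ O) ≤ #(K \ O.image o) := by
    rw [card_sdiff_of_subset h3, card_sdiff_of_subset (image_subset_iff.2 fun i e => (h1 i e).1), card_image_of_injOn h]
    omega
  obtain ⟨f, i⟩ := Function.Embedding.exists_of_card_le_finset (α := ↥(I \ O)) (s := K \ O.image o)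
    (by rwa [Fintype.card_coe])
  have i : ∀ x, f x ∈ K \ O.image o := fun x => i ⟨x, rfl⟩
  refine ⟨fun x => if e : x ∈ I \ O then f ⟨x, e⟩ else o x, fun x e y g l => ?_, fun x e => ?_⟩
  · have z : ∀ {x}, x ∈ I → x ∉ I \ O → x ∈ O := fun e g => by simpa [e] using g
    by_cases r : x ∈ I \ O <;> by_cases s : y ∈ I \ O <;> simp only [r, s, dif_pos, dif_neg, not_false_eq_true] at l
    · simpa using l
    · exact ((mem_sdiff.1 (i _)).2 (l ▸ mem_image_of_mem o (z g s))).elim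
    · exact ((mem_sdiff.1 (i _)).2 (l ▸ mem_image_of_mem o (z e r))).elim
    · exact h (z e r) (z g s) l
  · beta_reduce
    split_ifs with r
    exacts [⟨(mem_sdiff.1 (i _)).1, h2 x r _ (i _)⟩, h1 x (by simpa [e] using r)]

theorem ml {W J : Finset V} {R : V → V → Prop} {B : V → Finset V} (hB : ∀ v, ∀ w ∈ B v, B w = B v)
    (h : ∀ w ∈ W, (∃ o ∈ J, o ∈ B w ∧ R w o ∧ ∀ v ∈ W, B v = B w → v = w) ∨ ∀ p ∈ J, R w p) :
    (#W ≤ #J → ∃ φ : V → V, Set.InjOn φ W ∧ ∀ w ∈ W, φ w ∈ J ∧ R w (φ w)) ∧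
      (#J ≤ #W → ∃ ψ : V → V, Set.InjOn ψ J ∧ ∀ p ∈ J, ψ p ∈ W ∧ R (ψ p) p) := by
  set O := W.filter fun w => ¬ ∀ p ∈ J, R w p
  have : ∀ w, ∃ o, w ∈ O → o ∈ J ∧ o ∈ B w ∧ R w o ∧ ∀ v ∈ W, B v = B w → v = w := fun w => by
    by_cases e : w ∈ O
    · exact ((h w (mem_filter.1 e).1).resolve_right (mem_filter.1 e).2).imp fun o f _ => f
    · exact ⟨w, fun f => (e f).elim⟩
  choose o ho using this
  have i : Set.InjOn o O := fun x e y f g => (ho y f).2.2.2 x (mem_filter.1 e).1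
    ((hB _ _ (ho x e).2.1).symm.trans (g ▸ hB _ _ (ho y f).2.1))
  have z : ∀ w ∈ W \ O, ∀ p ∈ J, R w p := fun w e => by simpa [O, (mem_sdiff.1 e).1] using (mem_sdiff.1 e).2
  refine ⟨ml0 o i (fun w e => ⟨(ho w e).1, (ho w e).2.2.1⟩) (fun w e p f => z w e p (mem_sdiff.1 f).1) (filter_subset _ _),
    fun l => ?_⟩
  rcases isEmpty_or_nonempty V with _ | _
  · exact ⟨id, Set.injOn_id _, fun p => isEmptyElim p⟩
  have s : ∀ w ∈ O, Function.invFunOn o O (o w) = w := fun w e => i.leftInvOn_invFunOn e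
  refine ml0 (O := O.image o) (R := fun p w => R w p) (Function.invFunOn o O) (fun x e y f g => ?_) (fun x e => ?_)
    (fun p e w f => z w ?_ p (mem_sdiff.1 e).1) (image_subset_iff.2 fun w e => (ho w e).1) l
  · obtain ⟨x', e', rfl⟩ := mem_image.1 (mem_coe.1 e)
    obtain ⟨y', f', rfl⟩ := mem_image.1 (mem_coe.1 f)
    rw [s x' e', s y' f'] at g; rw [g]
  · obtain ⟨x', e', rfl⟩ := mem_image.1 e
    rw [s x' e']; exact ⟨(mem_filter.1 e').1, (ho x' e').2.2.1⟩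
  · exact mem_sdiff.2 ⟨(mem_sdiff.1 f).1, fun e => (mem_sdiff.1 f).2 (s w e ▸ mem_image_of_mem _ (mem_image_of_mem _ e))⟩

structure Nm (x x' y y' cX cY k : ℕ) : Prop where
  f1 : 3 ≤ y + y'
  f2 : y + y' ≤ x + x'
  f3 : y ≤ y'
  f4 : y = y' → x ≤ x'
  f5 : x * y' + y * x' + cX + cY ≤ k

variable {x x' y y' cX cY da db : ℕ}

theorem Nm.nA (h : Nm x x' y y' cX cY k) (h1 : da + 1 ≤ x + cX) (h2 : da + 2 ≤ x + x') (h3 : db + 2 ≤ y + y')
    (h4 : db + 1 ≤ y' + cY) (h5 : 2 ≤ y) (h6 : 1 ≤ x) : x + x' + (y + y') + da + db ≤ k + 2 := by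
  obtain ⟨a, b, c, d, e⟩ := h
  obtain ⟨x, rfl⟩ := Nat.exists_eq_add_of_le h6
  obtain ⟨z, rfl⟩ := Nat.exists_eq_add_of_le c
  obtain ⟨y, rfl⟩ := Nat.exists_eq_add_of_le h5
  rcases y with _ | y <;> rcases z with _ | z
  · have := d rfl; omega
  · nlinarith [Nat.zero_le (x * z)]
  · nlinarith [Nat.zero_le (y * y), mul_le_mul_left b y]
  · nlinarith [Nat.zero_le (x * z), Nat.zero_le (x * y), Nat.zero_le (y * x')]

theorem Nm.nP (h : Nm x x' 1 y' cX cY k) (h1 : da + 1 ≤ x + cX) (h4 : db ≤ cY ∨ 2 ≤ x ∧ db + 2 ≤ y' + cY) (h6 : 1 ≤ x) :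
    x + x' + (1 + y') + da + db ≤ k + 2 := by
  obtain ⟨a, b, c, d, e⟩ := h
  obtain ⟨x, rfl⟩ := Nat.exists_eq_add_of_le h6
  obtain ⟨z, rfl⟩ := Nat.exists_eq_add_of_le (show 2 ≤ y' by omega)
  obtain h4 | h4 := h4
  · nlinarith [Nat.zero_le (x * z)]
  · obtain ⟨x, rfl⟩ := Nat.exists_eq_add_of_le (show 1 ≤ x by omega)
    nlinarith [Nat.zero_le (x * z)]

theorem Nm.nB (h : Nm x x' y y' cX cY k) (h1 : da + 1 ≤ x' + cX) (h2 : da + 2 ≤ x + x') (h4 : db + 1 ≤ y + cY)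
    (h5 : 3 ≤ y ∨ y = 2 ∧ (2 ≤ x ∨ x = 1 ∧ da + 2 ≤ x' + cX)) : x + x' + (y + y') + da + db ≤ k + 2 := by
  obtain ⟨a, b, c, d, e⟩ := h
  obtain ⟨z, rfl⟩ := Nat.exists_eq_add_of_le c
  obtain h5 | ⟨rfl, h5 | ⟨rfl, h5⟩⟩ := h5
  · obtain ⟨y, rfl⟩ := Nat.exists_eq_add_of_le h5
    nlinarith [Nat.zero_le (x * z), mul_le_mul_left b y, Nat.zero_le (y * y), Nat.zero_le (y * z)]
  · obtain ⟨x, rfl⟩ := Nat.exists_eq_add_of_le h5
    nlinarith [Nat.zero_le (x * z)]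
  · omega

end Pool.Agent.H.MP_fe081e_lc
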