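import Pool.Agent.H.MP_fe081e_lc.B

namespace Pool.Agent.H.MP_fe081e_lc

open Finset SimpleGraph Classical

variable {V : Type} [Fintype V] {G : SimpleGraph V} {a b c u v w p q : V} {k : ℕ} {S X Z P : Finset V}
  {B : V → Finset V}

theorem P4 (h : Cograph G) (e : G.Adj a b) (f : G.Adj b c) (g : G.Adj c u) (i : ¬ G.Adj a c) (j : ¬ G.Adj b u) :
    G.Adj a u := by_contra fun n => h ⟨a, b, c, u, e, f, g, i, j, n⟩

noncomputable def lv (G : SimpleGraph V) (Z : Finset V) (c p : V) : Finset V :=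
  if p ∈ Z then univ.filter fun w => w ≠ c ∧ ¬ G.Adj c w ∧ G.Adj p w else univ

theorem lv_mem (hZ : Cmp G Z) (hc : c ∈ Z) (e : w ≠ c) (f : ¬ G.Adj c w) : w ∈ lv G Z c p ↔ G.Adj w p := by
  unfold lv
  split_ifs with h
  · simp [e, f, G.adj_comm]
  · simpa using hZ w (by_contra fun n => f (hZ c hc w n)) p h

theorem lv_out : c ∈ lv G Z c p ↔ p ∉ Z := by
  unfold lv; split_ifs with h <;> simp [h]

theorem lv_nadj (hG : Cograph G) (hZ : Cmp G Z) (e : G.Adj c p) (f : G.Adj c q) (g : ¬ G.Adj p q) :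
    lv G Z c p = lv G Z c q := by
  unfold lv
  split_ifs with h i i
  · exact filter_congr fun w _ => and_congr_right fun _ => and_congr_right fun l =>
      ⟨fun m => (P4 hG m.symm e.symm f (fun o => l o.symm) g).symm,
        fun m => (P4 hG m.symm f.symm e (fun o => l o.symm) fun o => g o.symm).symm⟩
  exacts [(g (hZ p h q i)).elim, (g (hZ q i p h).symm).elim, rfl]

theorem lv_nest (hG : Cograph G) (hZ : Cmp G Z) (e : G.Adj c p) (f : G.Adj c q) :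
    lv G Z c p ⊆ lv G Z c q ∨ lv G Z c q ⊆ lv G Z c p := by
  by_cases g : G.Adj p q
  swap
  · exact .inl (lv_nadj hG hZ e f g).le
  unfold lv
  split_ifs
  · by_contra n
    simp only [not_or, not_subset, mem_filter, mem_univ, true_and, not_and] at n
    obtain ⟨⟨x, ⟨x1, x2, x3⟩, x4⟩, y, ⟨y1, y2, y3⟩, y4⟩ := n
    exact y2 (P4 hG e x3 (P4 hG x3.symm g y3 (fun o => x4 x1 x2 o.symm) (y4 y1 y2)) x2 (y4 y1 y2))
  exacts [.inl (subset_univ _), .inr (subset_univ _), .inl (subset_univ _)]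

theorem cls (hG : Cograph G) (hZ : Cmp G Z) (hc : c ∈ Z) (hB : ∀ v, ∀ w ∈ B v, B w = B v) (D : ∀ v ≠ c, dg G v ≤ k)
    (h : ∀ w ≠ c, ¬ G.Adj c w → ∃ b, G.Adj c b ∧ G.Adj w b ∧ ((b ∈ B w ∧ dg G w + dg G b ≤ k + 2 ∧
      ∀ v ≠ c, ¬ G.Adj c v → B v = B w → v = w) ∨ ∀ p, G.Adj c p → lv G Z c p = lv G Z c b → dg G w + dg G p ≤ k + 2)) :
    ∃ c, Sp G k c := by
  have : Nonempty V := ⟨c⟩
  choose! b h1 h2 h3 using h
  let J := fun L => univ.filter fun p => G.Adj c p ∧ lv G Z c p = L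
  let W := fun L => univ.filter fun w => (w ≠ c ∧ ¬ G.Adj c w) ∧ lv G Z c (b w) = L
  have hJ : ∀ {L p}, p ∈ J L ↔ G.Adj c p ∧ lv G Z c p = L := by simp [J]
  have hW : ∀ {L w}, w ∈ W L ↔ (w ≠ c ∧ ¬ G.Adj c w) ∧ lv G Z c (b w) = L := by simp [W]
  have jw : ∀ {L p w}, p ∈ J L → w ∈ W L → G.Adj w p := fun e f => by
    obtain ⟨⟨f, g⟩, i⟩ := hW.1 f
    rw [← lv_mem hZ hc f g, (hJ.1 e).2, ← i, lv_mem hZ hc f g]; exact h2 _ f g
  have m := fun L => ml (W := W L) (J := J L) (R := Mt G k c) hB fun w e => by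
    obtain ⟨⟨f, g⟩, i⟩ := hW.1 e
    exact (h3 w f g).imp (fun j => ⟨b w, hJ.2 ⟨h1 w f g, i⟩, j.1, ⟨h1 w f g, h2 w f g, j.2.1⟩,
      fun v l => j.2.2 v (hW.1 l).1.1 (hW.1 l).1.2⟩) fun j p l => ⟨(hJ.1 l).1, jw l e, j p (hJ.1 l).1 ((hJ.1 l).2.trans i.symm)⟩
  choose! φ f1 f2 using fun L => (m L).1
  have f3 : ∀ x y, x ≠ c ∧ ¬ G.Adj c x → y ≠ c ∧ ¬ G.Adj c y → #(W (lv G Z c (b x))) ≤ #(J (lv G Z c (b x))) →
      #(W (lv G Z c (b y))) ≤ #(J (lv G Z c (b y))) → φ (lv G Z c (b x)) x = φ (lv G Z c (b y)) y → x = y :=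
    fun x y e f i j l => by
      have o := (hJ.1 (f2 _ i x (hW.2 ⟨e, rfl⟩)).1).2.symm.trans (l ▸ (hJ.1 (f2 _ j y (hW.2 ⟨f, rfl⟩)).1).2)
      rw [← o] at l
      exact f1 _ i (mem_coe.2 (hW.2 ⟨e, rfl⟩)) (mem_coe.2 (hW.2 ⟨f, o.symm⟩)) l
  by_cases o : ∀ L, #(W L) ≤ #(J L)
  · exact ⟨c, D, fun w => φ (lv G Z c (b w)) w, fun x e y f => f3 x y e f (o _) (o _),
      fun w e f => (f2 _ (o _) w (hW.2 ⟨⟨e, f⟩, rfl⟩)).2⟩
  obtain ⟨L, l, M⟩ := exists_max_image (univ.filter fun L => ¬ #(W L) ≤ #(J L)) card (by simpa [Finset.Nonempty] using o)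
  simp only [mem_filter, mem_univ, true_and, not_le] at l M
  obtain ⟨w, e⟩ := card_pos.1 (Nat.zero_lt_of_lt l)
  obtain ⟨ψ, g1, g2⟩ := (m L).2 l.le
  have r : b w ∈ J L := hJ.2 ⟨h1 w (hW.1 e).1.1 (hW.1 e).1.2, (hW.1 e).2⟩
  generalize b w = d at r
  obtain ⟨r1, r2⟩ := hJ.1 r
  have s : ∀ v, G.Adj c v → ¬ G.Adj d v → v ∈ J L := fun v i j => hJ.2 ⟨i, (lv_nadj hG hZ r1 i j).symm.trans r2⟩
  have t : ∀ v, ¬ G.Adj c v → ¬ G.Adj d v → (v ≠ c ∧ ¬ G.Adj c v) ∧ lv G Z c (b v) ≠ L ∧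
      #(W (lv G Z c (b v))) ≤ #(J (lv G Z c (b v))) := fun v i j => by
    have z : v ≠ c := fun z => j (z ▸ r1.symm)
    have y := (lv_mem hZ hc z i).2 (h2 v z i)
    have x : v ∉ L := fun x => j ((lv_mem hZ hc z i).1 (r2 ▸ x)).symm
    refine ⟨⟨z, i⟩, fun n => x (n ▸ y), by_contra fun n => (M _ (not_le.1 n)).not_gt (card_lt_card ⟨?_, fun n => x (n y)⟩)⟩
    exact r2 ▸ (lv_nest hG hZ r1 (h1 v z i)).resolve_right fun n => x (r2 ▸ n y)
  refine ⟨d, fun v i => ?_, fun v => if G.Adj c v then ψ v else φ (lv G Z c (b v)) v, fun x i y j n => ?_, fun v i j => ?_⟩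
  · by_cases z : v = c
    swap
    · exact D v z
    subst z
    obtain ⟨i1, -, i2, i3⟩ := g2 d r
    have := card_le_card (s := univ.filter (G.Adj v)) (t := univ.filter (G.Adj d) \ {v, ψ d} ∪ univ.filter (G.Adj (ψ d)))
      fun x j => by
        simp only [mem_filter, mem_univ, true_and, mem_union, mem_sdiff, mem_insert, mem_singleton] at j ⊢
        by_cases n : G.Adj d x
        exacts [.inl ⟨n, by rintro (rfl | rfl); exacts [j.ne rfl, (hW.1 i1).1.2 j]⟩, .inr (jw (s x j n) i1)]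
    have z := card_union_le (univ.filter (G.Adj d) \ {v, ψ d}) (univ.filter (G.Adj (ψ d)))
    have y := card_sdiff_add_card_eq_card (s := {v, ψ d}) (t := univ.filter (G.Adj d))
      (by simp [insert_subset_iff, r1.symm, i2.symm])
    rw [card_pair (hW.1 i1).1.1.symm] at y
    unfold dg nb at *
    omega
  · by_cases x1 : G.Adj c x <;> by_cases y1 : G.Adj c y <;> simp only [x1, y1, if_true, if_false] at n
    · exact g1 (s x x1 i.2) (s y y1 j.2) n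
    · exact ((hW.1 (g2 x (s x x1 i.2)).1).1.2 (n ▸ (f2 _ (t y y1 j.2).2.2 y (hW.2 ⟨(t y y1 j.2).1, rfl⟩)).2.1)).elim
    · exact ((hW.1 (g2 y (s y y1 j.2)).1).1.2 (n ▸ (f2 _ (t x x1 i.2).2.2 x (hW.2 ⟨(t x x1 i.2).1, rfl⟩)).2.1)).elim
    · exact f3 x y (t x x1 i.2).1 (t y y1 j.2).1 (t x x1 i.2).2.2 (t y y1 j.2).2.2 n
  · beta_reduce
    split_ifs with n
    · obtain ⟨i1, -, i2, i3⟩ := g2 v (s v n j)
      exact ⟨(jw r i1).symm, i2.symm, add_comm (dg G v) _ ▸ i3⟩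
    · obtain ⟨t1, t2, t3⟩ := t v n j
      obtain ⟨i1, i2, i3⟩ := f2 _ t3 v (hW.2 ⟨t1, rfl⟩)
      exact ⟨by_contra fun z => t2 ((hJ.1 i1).2.symm.trans (hJ.1 (s _ i2 z)).2), i3⟩

theorem Br.arg (h : Br G k c B) (hG : Cograph G) (hZ : Cmp G Z) (hc : c ∈ Z) (e : w ≠ c) : ∃ b ∈ B w, G.Adj c b ∧
    (∀ p ∈ B w, G.Adj c p → lv G Z c p ⊆ lv G Z c b) ∧ ∀ z ∈ B w, ¬ G.Adj c z → G.Adj z b := by
  obtain ⟨b, i, m⟩ := exists_max_image ((B w).filter (G.Adj c)) (fun p => #(lv G Z c p))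
    ((h.top w e).imp fun p => mem_filter.2)
  obtain ⟨i, j⟩ := mem_filter.1 i
  have m : ∀ p ∈ B w, G.Adj c p → lv G Z c p ⊆ lv G Z c b := fun p f g => (lv_nest hG hZ g j).elim id fun l =>
    (eq_of_subset_of_card_le l (m p (mem_filter.2 ⟨f, g⟩))).ge
  refine ⟨b, i, j, m, h.con w e (fun z => ¬ G.Adj c z → G.Adj z b) (fun _ _ f g => (g f).elim) fun x f y g l o n => ?_⟩
  have z : y ≠ c := fun z => h.nc w e (z ▸ g)
  by_cases r : G.Adj c x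
  · exact (lv_mem hZ hc z n).1 (m x f r ((lv_mem hZ hc z n).2 l.symm))
  · exact by_contra fun s => n (P4 hG j (o r).symm l r fun t => s t.symm)

end Pool.Agent.H.MP_fe081e_lc
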