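import Pool.Agent.H.MP_fe081e_lc.C

namespace Pool.Agent.H.MP_fe081e_lc

open Finset SimpleGraph Classical

variable {V : Type} [Fintype V] {G T : SimpleGraph V} {a b c u v w p q : V} {k : ℕ} {S X Z P : Finset V}
  {B : V → Finset V}

theorem ed_zero (h : ed G S Z = 0) (e : a ∈ S) (f : b ∈ Z) : ¬ G.Adj a b := fun g =>
  card_ne_zero.2 ⟨b, mem_filter.2 ⟨f, g⟩⟩ (sum_eq_zero_iff.1 h a e)

theorem one (hZ : Cmp G Z) (h : ed G S Sᶜ ≤ k) (h0 : #(S ∩ Zᶜ) = 0) (hP : P ⊆ S ∩ Z) (l : #P ≤ #Zᶜ) :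
    ∑ a ∈ P, dg G a + #P ≤ k + #P * #P := by
  have e := in_le (G := G) hP
  have f := sp_card S Zᶜ
  have g := card_le_card hP
  rw [hZ.cut] at h
  rw [sum_congr rfl fun a e => hZ.dg (mem_inter.1 (hP e)).2]
  simp only [sum_add_distrib, sum_const, smul_eq_mul] at e ⊢
  obtain ⟨x, g⟩ := Nat.exists_eq_add_of_le g
  obtain ⟨y, l⟩ := Nat.exists_eq_add_of_le l
  rw [h0, zero_add] at f
  rw [f, h0, g, l] at h
  rw [g] at e
  rw [l]
  nlinarith [Nat.zero_le (x * y)]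

theorem two (hZ : Cmp G Z) (h : ed G S Sᶜ ≤ k) (h0 : #(S ∩ Zᶜ) = 0) (e : a ∈ S ∩ Z) (f : b ∈ S ∩ Z) (g : a ≠ b)
    (l : 2 ≤ #Zᶜ) : dg G a + dg G b ≤ k + 2 := by
  have := one (P := {a, b}) hZ h h0 (insert_subset e (singleton_subset_iff.2 f)) (by rwa [card_pair g])
  rw [sum_pair g, card_pair g] at this
  omega

structure NS (G : SimpleGraph V) (X S : Finset V) (k : ℕ) : Prop where
  hX : Cmp G X
  hu : ∀ v, dg G v + 2 ≤ Fintype.card V
  cut : ed G S Sᶜ ≤ k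
  nm : Nm #(S ∩ X) #(X \ S) #(S ∩ Xᶜ) #(Xᶜ \ S) (ed G (S ∩ X) (X \ S)) (ed G (S ∩ Xᶜ) (Xᶜ \ S)) k

theorem NS.n (S X : Finset V) : Fintype.card V = #(S ∩ X) + #(X \ S) + (#(S ∩ Xᶜ) + #(Xᶜ \ S)) := by
  rw [sp_card, sp_card, card_add_card_compl]

theorem NS.dX (h : NS G X S k) (e : a ∈ X) : dg G a = #(S ∩ Xᶜ) + #(Xᶜ \ S) + nb G X a ∧
    nb G X a + 2 ≤ #(S ∩ X) + #(X \ S) := by
  have := h.hu a
  rw [NS.n S X, h.hX.dg e, ← sp_card S] at this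
  exact ⟨by rw [h.hX.dg e, sp_card], by omega⟩

theorem NS.dY (h : NS G X S k) (e : a ∈ Xᶜ) : dg G a = #(S ∩ X) + #(X \ S) + nb G Xᶜ a ∧
    nb G Xᶜ a + 2 ≤ #(S ∩ Xᶜ) + #(Xᶜ \ S) := by
  have := h.hu a
  rw [NS.n S X, h.hX.co.dg e, compl_compl] at this
  have := sp_card S X
  exact ⟨by rw [h.hX.co.dg e, compl_compl, sp_card], by omega⟩

theorem NS.c0 (h : NS G X S k) (e : a ∈ S ∩ X) (f : b ∈ S ∩ Xᶜ) : dg G a + dg G b ≤ k + 2 := by
  have h1 := h.dX (mem_inter.1 e).2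
  have h2 := h.dY (mem_inter.1 f).2
  have h3 := in_le1 (G := G) e
  have h4 := in_le1 (G := G) f
  have h5 := card_pos.2 ⟨a, e⟩
  have h6 := card_pos.2 ⟨b, f⟩
  have n := h.nm
  by_cases y : #(S ∩ Xᶜ) = 1
  · rw [y] at n; have := n.nP (db := nb G Xᶜ b) h3 (.inl (by omega)) h5; omega
  · have := n.f3; have := n.nA h3 h1.2 h2.2 (by omega) (by omega) h5; omega

theorem NS.cA (h : NS G X S k) (ns : ∀ c, ¬ Sp G k c) (e : a ∈ S ∩ X) (f : b ∈ Xᶜ)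
    (g : 2 ≤ #(S ∩ Xᶜ) ∨ #(S ∩ Xᶜ) = 1 ∧ 2 ≤ #(S ∩ X)) : dg G a + dg G b ≤ k + 2 := by
  by_cases i : b ∈ S
  · exact h.c0 e (mem_inter.2 ⟨i, f⟩)
  have h1 := h.dX (mem_inter.1 e).2
  have h2 := h.dY f
  have h3 := in_le1 (G := G) e
  have h4 := out_le (G := G) (mem_sdiff.2 ⟨f, i⟩)
  have h5 := card_pos.2 ⟨a, e⟩
  have n := h.nm
  obtain g | ⟨y, g⟩ := g
  · have := n.nA h3 h1.2 h2.2 h4 g h5; omega
  by_cases j : nb G Xᶜ b + 2 ≤ #(Xᶜ \ S) + ed G (S ∩ Xᶜ) (Xᶜ \ S)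
  · rw [y] at n; have := n.nP h3 (.inr ⟨g, j⟩) h5; omega
  obtain ⟨d, l⟩ := card_pos.1 (show 0 < #(S ∩ Xᶜ) by omega)
  have := h.c0 e l
  have := h.dY (mem_inter.1 l).2
  have := NS.n S X
  exact (ns b (sc (w := d) h.hu (by omega) (fun z => i (z ▸ (mem_inter.1 l).1))
    (fun z => ed_zero (by omega) l (mem_sdiff.2 ⟨f, i⟩) z.symm)
    (h.hX a (mem_inter.1 e).2 d (mem_compl.1 (mem_inter.1 l).2)).symm (by omega) (by omega))).elim

theorem NS.cB (h : NS G X S k) (ns : ∀ c, ¬ Sp G k c) (e : a ∈ X) (f : b ∈ S ∩ Xᶜ)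
    (g : 3 ≤ #(S ∩ Xᶜ) ∨ #(S ∩ Xᶜ) = 2 ∧ 1 ≤ #(S ∩ X)) : dg G a + dg G b ≤ k + 2 := by
  by_cases i : a ∈ S
  · exact h.c0 (mem_inter.2 ⟨i, e⟩) f
  have h1 := h.dX e
  have h2 := h.dY (mem_inter.1 f).2
  have h3 := in_le1 (G := G) f
  have h4 := out_le (G := G) (mem_sdiff.2 ⟨e, i⟩)
  by_cases j : 3 ≤ #(S ∩ Xᶜ) ∨ 2 ≤ #(S ∩ X) ∨ nb G X a + 2 ≤ #(X \ S) + ed G (S ∩ X) (X \ S)
  · have := h.nm.nB h4 h1.2 h3 (by omega); omega
  obtain ⟨d, l⟩ := card_pos.1 (show 0 < #(S ∩ X) by omega)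
  have := h.c0 l f
  have := h.dX (mem_inter.1 l).2
  have := NS.n S X
  exact (ns a (sc (w := d) h.hu (by omega) (fun z => i (z ▸ (mem_inter.1 l).1))
    (fun z => ed_zero (by omega) l (mem_sdiff.2 ⟨e, i⟩) z.symm)
    (h.hX d (mem_inter.1 l).2 b (mem_compl.1 (mem_inter.1 f).2)) (by omega) (by omega))).elim

theorem NS.cD (h : NS G X S k) (e : v ∈ S) : dg G v ≤ k := by
  have := h.nm.f1
  have := h.nm.f2
  have := sp_card S X
  have := sp_card S Xᶜ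
  by_cases f : v ∈ X
  · obtain y | ⟨b, y⟩ := (S ∩ Xᶜ).eq_empty_or_nonempty
    · simpa using one (P := {v}) h.hX h.cut (by simp [y]) (by simp [e, f]) (by simp only [card_singleton]; omega)
    · have := h.c0 (mem_inter.2 ⟨e, f⟩) y; have := h.dY (mem_inter.1 y).2; omega
  · obtain y | ⟨b, y⟩ := (S ∩ X).eq_empty_or_nonempty
    · simpa using one (P := {v}) h.hX.co h.cut (by simp [y]) (by simp [e, f])
        (by simp only [card_singleton, compl_compl]; omega)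
    · have := h.c0 y (mem_inter.2 ⟨e, mem_compl.2 f⟩); have := h.dX (mem_inter.1 y).2; omega

theorem main (hG : Cograph G) (hX : Cmp G X) (h3 : 3 ≤ #Xᶜ) (hm : #Xᶜ ≤ #X) (hu : ∀ v, dg G v + 2 ≤ Fintype.card V)
    (hT : SpTree G T) (e : ec G T ≤ k) : ∃ c, Sp G k c := by
  by_contra ns
  push Not at ns
  obtain ⟨c, hc⟩ := centroid hT.2 fun v => if v ∈ X then 1 else #X + 1
  have hB := hT.br e c
  generalize brn T c = B at hB hc
  have s : ∀ S : Finset V, ∑ v ∈ S, (if v ∈ X then 1 else #X + 1) = #(S ∩ X) + #(S ∩ Xᶜ) * (#X + 1) := fun S => by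
    rw [sum_ite, sum_const, sum_const, smul_eq_mul, smul_eq_mul, mul_one, filter_mem_eq_inter]
    congr 3; ext; simp
  have N : ∀ v ≠ c, NS G X (B v) k := fun v f => by
    have i := hc v f
    have j := sp_card (B v) X
    have l := sp_card (B v) Xᶜ
    rw [s, s, univ_inter, univ_inter, ← l] at i
    refine ⟨hX, hu, hB.cut v f, by omega, by omega, by_contra fun n => ?_, fun n => ?_, hX.cut ▸ hB.cut v f⟩
    · nlinarith
    · rw [← n] at i; nlinarith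
  have D : ∀ v ≠ c, dg G v ≤ k := fun v f => (N v f).cD (hB.mem v)
  by_cases hc : c ∈ X
  · refine (cls hG hX hc hB.eq D fun w f g => ?_).elim ns
    obtain ⟨b, i, j, l, m⟩ := hB.arg hG hX hc f
    have n := N w f
    have x : ∀ {v}, ¬ G.Adj c v → v ∈ X := fun g => by_contra fun n => g (hX c hc _ n)
    have w1 : w ∈ B w ∩ X := mem_inter.2 ⟨hB.mem w, x g⟩
    refine ⟨b, j, m w (hB.mem w) g, ?_⟩
    obtain y | ⟨d, y⟩ := (B w ∩ Xᶜ).eq_empty_or_nonempty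
    · have b1 : b ∈ B w ∩ X := mem_inter.2 ⟨i, by_contra fun z => by simpa [i, z] using eq_empty_iff_forall_notMem.1 y b⟩
      have wb : w ≠ b := fun z => g (z ▸ j)
      by_cases o : ∀ v ≠ c, ¬ G.Adj c v → B v = B w → v = w
      · exact .inl ⟨i, two hX n.cut (by simp [y]) w1 b1 wb (by omega), o⟩
      push Not at o
      obtain ⟨v, v1, v2, v3, v4⟩ := o
      have v5 : v ∈ B w := v3 ▸ hB.mem v
      have vb : v ≠ b := fun z => v2 (z ▸ j)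
      have t := one (P := {w, b, v}) hX n.cut (by simp [y]) (by simp [insert_subset_iff, w1, b1, v5, x v2]) (card_le_three.trans h3)
      rw [sum_insert (by simp [wb, v4.symm]), sum_pair vb.symm, card_insert_of_notMem (by simp [wb, v4.symm]),
        card_pair vb.symm] at t
      refine .inr fun p p1 p2 => ?_
      set J := univ.filter fun q => G.Adj c q ∧ lv G X c q = lv G X c b
      have r : #J ≤ nb G X v := card_le_card fun q z => by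
        obtain ⟨z1, z2⟩ := (mem_filter.1 z).2
        refine mem_filter.2 ⟨by_contra fun n => lv_out.1 (z2 ▸ lv_out.2 n) (mem_inter.1 b1).2, ?_⟩
        rw [← lv_mem hX hc v1 v2, z2, lv_mem hX hc v1 v2]; exact m v v5 v2
      have r2 := card_le_card (s := insert p (univ.filter (G.Adj p))) (t := univ.filter (G.Adj b) ∪ J) fun q z => by
        simp only [J, mem_insert, mem_filter, mem_univ, true_and, mem_union] at z ⊢
        obtain rfl | z := z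
        · exact .inr ⟨p1, p2⟩
        by_cases z1 : G.Adj b q
        · exact .inl z1
        by_cases z2 : G.Adj c q
        · exact .inr ⟨z2, (lv_nadj hG hX j z2 z1).symm⟩
        have z3 : q ≠ c := fun z3 => z1 (z3 ▸ j.symm)
        exact (z1 ((lv_mem hX hc z3 z2).1 (p2 ▸ (lv_mem hX hc z3 z2).2 z.symm)).symm).elim
      rw [card_insert_of_notMem (by simp)] at r2
      have := card_union_le (univ.filter (G.Adj b)) J
      have := hX.dg (x v2)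
      unfold dg nb at *
      omega
    have b1 : b ∉ X := lv_out.1 (l d (mem_inter.1 y).1 (hX c hc d (mem_compl.1 (mem_inter.1 y).2))
      (lv_out.2 (mem_compl.1 (mem_inter.1 y).2)))
    have := card_pos.2 ⟨d, y⟩
    by_cases o : #(B w ∩ Xᶜ) = 1 ∧ #(B w ∩ X) ≤ 1
    · exact .inl ⟨i, n.c0 w1 (mem_inter.2 ⟨i, mem_compl.2 b1⟩), fun v _ v2 v3 =>
        card_le_one.1 o.2 v (mem_inter.2 ⟨v3 ▸ hB.mem v, x v2⟩) w w1⟩
    · exact .inr fun p _ p2 => n.cA ns w1 (mem_compl.2 (lv_out.1 (p2 ▸ lv_out.2 b1))) (by omega)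
  · have hc := mem_compl.2 hc
    refine (cls hG hX.co hc hB.eq D fun w f g => ?_).elim ns
    have n := N w f
    have x : ∀ {v}, ¬ G.Adj c v → v ∈ Xᶜ := fun g => by_contra fun n => g (hX.co c hc _ n)
    have w1 : w ∈ B w ∩ Xᶜ := mem_inter.2 ⟨hB.mem w, x g⟩
    by_cases o : 3 ≤ #(B w ∩ Xᶜ) ∨ #(B w ∩ Xᶜ) = 2 ∧ 1 ≤ #(B w ∩ X)
    · obtain ⟨a, y⟩ := card_pos.1 (show 0 < #X by omega)
      have z : a ∉ Xᶜ := by simpa using y
      exact ⟨a, hX.co c hc a z, hX.co w (x g) a z, .inr fun p _ p2 => add_comm (dg G p) _ ▸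
        n.cB ns (not_not.1 fun t => lv_out.1 (p2 ▸ lv_out.2 z) (mem_compl.2 t)) w1 o⟩
    obtain ⟨b, i, j, -, m⟩ := hB.arg hG hX.co hc f
    have wb : w ≠ b := fun z => g (z ▸ j)
    refine ⟨b, j, m w (hB.mem w) g, .inl ⟨i, ?_⟩⟩
    by_cases y : b ∈ X
    · have := card_pos.2 ⟨b, mem_inter.2 ⟨i, y⟩⟩
      exact ⟨add_comm (dg G b) _ ▸ n.c0 (mem_inter.2 ⟨i, y⟩) w1, fun v _ v2 v3 =>
        card_le_one.1 (by omega) v (mem_inter.2 ⟨v3 ▸ hB.mem v, x v2⟩) w w1⟩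
    have b1 : b ∈ B w ∩ Xᶜ := mem_inter.2 ⟨i, mem_compl.2 y⟩
    have := one_lt_card.2 ⟨w, w1, b, b1, wb⟩
    refine ⟨two hX.co n.cut (by rw [compl_compl]; omega) w1 b1 wb (by rw [compl_compl]; omega), fun v _ v2 v3 => ?_⟩
    by_contra z
    have := two_lt_card_iff.2 ⟨v, w, b, mem_inter.2 ⟨v3 ▸ hB.mem v, x v2⟩, w1, b1, z, fun z => v2 (z ▸ j), wb⟩
    omega

end Pool.Agent.H.MP_fe081e_lc
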