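import Pool.Agent.Lib.lead.CXGraph

namespace Pool.Agent.H.MP_fe081e_lc

variable {V : Type}

/-- the component of `v` after deleting the edge `uv` from `T` -/
def Side (T : SimpleGraph V) (u v : V) : Set V := {x | (T.deleteEdges {s(u, v)}).Reachable v x}

/-- the number of edges of `G` with exactly one end in that component -/
noncomputable def cng (G T : SimpleGraph V) (u v : V) : ℕ :=
  {e ∈ G.edgeSet | ∃ x y, e = s(x, y) ∧ x ∈ Side T u v ∧ y ∉ Side T u v}.ncard

/-- the congestion of `T`: the maximum over its (oriented) edges -/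
noncomputable def ec (G T : SimpleGraph V) : ℕ := ⨆ d : T.Dart, cng G T d.fst d.snd

def SpTree (G T : SimpleGraph V) : Prop := T ≤ G ∧ T.IsTree

/-- no induced path on four vertices -/
def Cograph (G : SimpleGraph V) : Prop :=
  ¬ ∃ a b c d, G.Adj a b ∧ G.Adj b c ∧ G.Adj c d ∧ ¬ G.Adj a c ∧ ¬ G.Adj b d ∧ ¬ G.Adj a d

end Pool.Agent.H.MP_fe081e_lc
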