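import Pool.Agent.H.MP_fe081e_lc.D

namespace Pool.Agent.H.MP_fe081e_lc

open Finset SimpleGraph Classical

variable {V : Type} [Fintype V] {G T : SimpleGraph V} {a b c u v w p q : V} {k t : ℕ} {S X Z P : Finset V}
  {B : V → Finset V}

noncomputable def cm (G : SimpleGraph V) (c w : V) : ℕ := #(univ.filter fun p => G.Adj c p ∧ G.Adj w p)
def Hb (G : SimpleGraph V) (c : V) (t : ℕ) (w : V) : Prop := w ≠ c ∧ ¬ G.Adj c w ∧ cm G c w < t
def Lo (G : SimpleGraph V) (c : V) (t : ℕ) (w : V) : Prop := w ≠ c ∧ ¬ G.Adj c w ∧ t ≤ cm G c w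

structure Good (G : SimpleGraph V) (k : ℕ) (c q : V) (t : ℕ) : Prop where
  dg : ∀ v ≠ c, dg G v ≤ k
  hub : ∀ w, Hb G c t w → G.Adj c q ∧ G.Adj w q
  cut : q ≠ c → ed G (univ.filter fun x => x = q ∨ Hb G c t x) (univ.filter fun x => x = q ∨ Hb G c t x)ᶜ ≤ k
  mt : ∃ φ : V → V, Set.InjOn φ {w | Lo G c t w} ∧ ∀ w, Lo G c t w → Mt G k c w (φ w) ∧ φ w ≠ q

def GD (G : SimpleGraph V) (k : ℕ) : Prop := ∃ c q, ∃ t < 4, Good G k c q t

theorem Sp.gd (h : ∃ c, Sp G k c) : GD G k := by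
  obtain ⟨c, h, φ, e, f⟩ := h
  exact ⟨c, c, 0, by omega, h, fun w e => (Nat.not_lt_zero _ e.2.2).elim, fun e => (e rfl).elim,
    φ, e.mono fun w i => And.intro i.1 i.2.1, fun w i => ⟨f w i.1 i.2.1, (f w i.1 i.2.1).1.ne'⟩⟩

theorem ed_dg (S : Finset V) : ed G S Sᶜ + ed G S S = ∑ a ∈ S, dg G a := by
  rw [ed, ed, ← sum_add_distrib]
  exact sum_congr rfl fun a _ => by rw [dg, nb_split S univ, inter_univ, compl_eq_univ_sdiff, add_comm]

theorem mx (hG : Cograph G) (hX : Cmp G X) (e : p ∈ X) (f : G.Adj c p) : ∃ b ∈ X, G.Adj c b ∧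
    ∀ p ∈ X, G.Adj c p → lv G X c p ⊆ lv G X c b := by
  obtain ⟨b, i, m⟩ := exists_max_image (X.filter (G.Adj c)) (fun p => #(lv G X c p)) ⟨p, mem_filter.2 ⟨e, f⟩⟩
  obtain ⟨i, j⟩ := mem_filter.1 i
  exact ⟨b, i, j, fun p f g => (lv_nest hG hX g j).elim id fun l =>
    (eq_of_subset_of_card_le l (m p (mem_filter.2 ⟨f, g⟩))).ge⟩

theorem JL (hG : Cograph G) (hX : Cmp G X) (hc : c ∈ X) (e : w ≠ c) (f : ¬ G.Adj c w) :
    (∃ J ⊆ X, J.Nonempty ∧ c ∉ J ∧ ∀ a ∈ J, ∀ b ∈ X \ J, G.Adj a b) ∨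
      ∃ Q ⊆ X, Q.Nonempty ∧ c ∉ Q ∧ ∀ a ∈ Q, ∀ b ∈ X \ Q, ¬ G.Adj a b := by
  set Q := univ.filter fun w => w ≠ c ∧ ¬ G.Adj c w ∧ ∀ p ∈ X, G.Adj c p → ¬ G.Adj w p with hQ
  have z : ∀ b ∉ Q, b ≠ c → ¬ G.Adj c b → ∃ p ∈ X, G.Adj c p ∧ G.Adj b p := fun b i j l => by simpa [hQ, j, l] using i
  obtain y | y := Q.eq_empty_or_nonempty
  · obtain ⟨p, i, j, -⟩ := z w (by simp [y]) e f
    obtain ⟨d, d1, d2, m⟩ := mx hG hX i j
    refine .inl ⟨X.filter fun p => G.Adj c p ∧ lv G X c p = lv G X c d, filter_subset _ _, ⟨d, by simp [d1, d2]⟩,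
      by simp, fun a i b j => ?_⟩
    simp only [mem_filter, mem_sdiff, not_and] at i j
    by_cases r : b = c
    · exact r ▸ i.2.1.symm
    by_cases s : G.Adj c b
    · exact by_contra fun n => j.2 j.1 s ((lv_nadj hG hX i.2.1 s n).symm.trans i.2.2)
    obtain ⟨p, p1, p2, p3⟩ := z b (by simp [y]) r s
    exact ((lv_mem hX hc r s).1 (i.2.2 ▸ m p p1 p2 ((lv_mem hX hc r s).2 p3))).symm
  · refine .inr ⟨Q, fun a i => by_contra fun n => (mem_filter.1 i).2.2.1 (hX c hc a n), y, by simp [hQ], fun a i b j l => ?_⟩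
    obtain ⟨-, -, i1, i2⟩ := mem_filter.1 i
    obtain ⟨j1, j2⟩ := mem_sdiff.1 j
    have s : ¬ G.Adj c b := fun s => i2 b j1 s l
    obtain ⟨p, p1, p2, p3⟩ := z b j2 (fun r => i1 (r ▸ l.symm)) s
    exact i1 (P4 hG p2 p3.symm l.symm s fun r => i2 p p1 p2 r.symm)

theorem non (hu : dg G v + 2 ≤ Fintype.card V) : ∃ w ≠ v, ¬ G.Adj v w := by
  by_contra n
  push Not at n
  have := card_le_card (s := univ) (t := insert v (univ.filter (G.Adj v))) fun w _ => by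
    by_cases e : w = v <;> simp [e, n]
  have := card_insert_le v (univ.filter (G.Adj v))
  unfold dg nb at hu
  simp only [card_univ] at *
  omega

theorem cut2 (hX : Cmp G X) (h2 : #Xᶜ = 2) (e : a ∈ S ∩ Xᶜ) (f : b ∈ Xᶜ \ S) :
    ed G S Sᶜ = #X + ed G (S ∩ X) (X \ S) + ed G (S ∩ Xᶜ) (Xᶜ \ S) := by
  have := sp_card S Xᶜ
  have := card_pos.2 ⟨a, e⟩
  have := card_pos.2 ⟨b, f⟩
  rw [hX.cut, show #(S ∩ Xᶜ) = 1 by omega, show #(Xᶜ \ S) = 1 by omega, mul_one, one_mul, sp_card]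

theorem ed_eq_zero (h : ∀ a ∈ S, ∀ b ∈ Z, ¬ G.Adj a b) : ed G S Z = 0 :=
  sum_eq_zero fun a e => card_eq_zero.2 (filter_false_of_mem (h a e))

variable (hG : Cograph G) (hu : ∀ v, dg G v + 2 ≤ Fintype.card V) (hT : SpTree G T) (e : ec G T ≤ k) (hX : Cmp G X)
include hG hu hT e hX

theorem both (h : 3 ≤ #X) (g : 3 ≤ #Xᶜ) : GD G k := Sp.gd <| (le_total #Xᶜ #X).elim (main hG hX g · hu hT e) fun l =>
  main hG hX.co (by rwa [compl_compl]) (by rwa [compl_compl]) hu hT e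

theorem spec (h2 : #Xᶜ = 2) (hP : P ⊆ X) (h0 : P.Nonempty) (hm : 2 * #P ≤ #X) (h : ∀ a ∈ P, ∀ b ∈ X \ P, ¬ G.Adj a b) :
    GD G k := by
  have hn := card_add_card_compl X
  obtain ⟨q, b, qb, hY⟩ := card_eq_two.1 h2
  have q1 : q ∈ Xᶜ := by simp [hY]
  have b1 : b ∈ Xᶜ := by simp [hY]
  have hB := hT.br e b
  have km := hB.cut q qb
  rw [cut2 hX h2 (mem_inter.2 ⟨hB.mem q, q1⟩) (mem_sdiff.2 ⟨b1, hB.nc q qb⟩)] at km
  obtain ⟨a, a1, ma⟩ := exists_max_image P (dg G) h0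
  have a2 := hP a1
  have x : ∀ {v}, ¬ G.Adj a v → v ∈ X := fun g => by_contra fun n => g (hX a a2 _ n)
  have K : ∀ w, ¬ G.Adj a w → (3 ≤ cm G a w ↔ ∃ p ∈ X, G.Adj a p ∧ G.Adj w p) := fun w g => by
    refine ⟨fun l => by_contra fun n => ?_, fun ⟨p, p1, p2⟩ => ?_⟩
    · exact (l.trans (card_le_card fun p i => mem_compl.2 fun j => n ⟨p, j, (mem_filter.1 i).2⟩)).not_gt (by omega)
    · refine le_trans (b := #(insert p Xᶜ)) (by rw [card_insert_of_notMem (by simpa), h2]) (card_le_card fun r i => ?_)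
      obtain rfl | i := mem_insert.1 i
      · simpa using p2
      · simpa using ⟨hX a a2 r (mem_compl.1 i), hX w (x g) r (mem_compl.1 i)⟩
  have pp : ∀ {u v}, u ∈ P → v ∈ X → G.Adj u v → v ∈ P := fun i j l => by_contra fun n => h _ i _ (mem_sdiff.2 ⟨j, n⟩) l
  have dp : ∀ v ∈ P, dg G v ≤ #P + 1 := fun v i => by
    have := nb_lt (G := G) i
    have : nb G X v ≤ nb G P v := card_le_card fun u j => mem_filter.2
      ⟨pp i (mem_filter.1 j).1 (mem_filter.1 j).2, (mem_filter.1 j).2⟩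
    have := hX.dg (hP i)
    omega
  refine ⟨a, q, 3, by omega, fun v _ => by have := hu v; omega, fun w i => ⟨hX a a2 q (mem_compl.1 q1),
    hX w (x i.2.1) q (mem_compl.1 q1)⟩, fun _ => ?_, ?_⟩
  · have y : ∀ v ∈ Xᶜ, ¬ Hb G a 3 v := fun v i j => mem_compl.1 i (x j.2.1)
    rw [cut2 (a := q) (b := b) hX h2 (by simp [q1]) (by simp [b1, qb.symm, y]), ed_eq_zero, ed_eq_zero]
    · omega
    · intro u i v j l
      have := hu u
      have := card_pos.2 ⟨v, mem_filter.2 ⟨(mem_sdiff.1 j).1, l⟩⟩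
      rw [hX.co.dg (mem_inter.1 i).2, compl_compl, nb] at *
      omega
    · intro u i v j l
      simp only [mem_inter, mem_filter, mem_univ, true_and, mem_sdiff, not_or] at i j
      obtain ⟨i1, i2, i3⟩ := i.1.resolve_left fun z => mem_compl.1 q1 (z ▸ i.2)
      have i4 := mt (K u i2).2 i3.not_ge
      have s : ¬ G.Adj a v := fun s => i4 ⟨v, j.1, s, l⟩
      obtain ⟨p, p1, p2, p3⟩ := (K v s).1 (not_lt.1 fun z => j.2.2 ⟨fun r => i2 (r ▸ l.symm), s, z⟩)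
      exact i2 (P4 hG p2 p3.symm l.symm s fun r => i4 ⟨p, p1, p2, r.symm⟩)
  by_cases z : ∃ w, Lo G a 3 w
  swap
  · exact ⟨id, Set.injOn_id _, fun w i => (z ⟨w, i⟩).elim⟩
  obtain ⟨w, z⟩ := z
  obtain ⟨p, p1, p2, -⟩ := (K w z.2.1).1 z.2.2
  obtain ⟨d, d1, d2, m⟩ := mx hG hX p1 p2
  set J := X.filter fun p => G.Adj a p ∧ lv G X a p = lv G X a d with hJ
  have jw : ∀ w, Lo G a 3 w → ∀ p ∈ J, G.Adj w p := fun w i p j => by
    obtain ⟨r, r1, r2, r3⟩ := (K w i.2.1).1 i.2.2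
    rw [← lv_mem hX a2 i.1 i.2.1, (mem_filter.1 j).2.2]
    exact m r r1 r2 ((lv_mem hX a2 i.1 i.2.1).2 r3)
  have dJ : d ∈ J := mem_filter.2 ⟨d1, d2, rfl⟩
  have c1 := card_le_card (s := univ.filter (G.Adj a)) (t := (univ.filter fun p => G.Adj a p ∧ G.Adj d p) ∪ J) fun v i => by
    simp only [hJ, mem_filter, mem_univ, true_and, mem_union] at i ⊢
    by_cases s : G.Adj d v
    exacts [.inl ⟨i, s⟩, .inr ⟨by_contra fun n => s (hX d d1 v n), i, (lv_nadj hG hX d2 i s).symm⟩]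
  have c2 := card_le_card (s := (univ.filter fun p => G.Adj a p ∧ G.Adj d p) ∪ univ.filter (Lo G a 3))
    (t := univ.filter (G.Adj d)) fun v i => by
      simp only [mem_filter, mem_univ, true_and, mem_union] at i ⊢
      exact i.elim (·.2) fun i => (jw v i d dJ).symm
  rw [card_union_of_disjoint (disjoint_filter.2 fun v _ i j => j.2.1 i.1)] at c2
  have c3 := card_union_le (univ.filter fun p => G.Adj a p ∧ G.Adj d p) J
  have c4 := ma d (pp a1 d1 d2)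
  obtain ⟨φ, f1, f2⟩ := ml0 (I := univ.filter (Lo G a 3)) (K := J) (O := ∅) (R := fun _ _ => True) id (by simp) (by simp)
    (by simp) (by simp) (by unfold dg nb at c4; omega)
  refine ⟨φ, by simpa using f1, fun w i => ?_⟩
  have j := (f2 w (by simpa)).1
  obtain ⟨j1, j2, -⟩ := mem_filter.1 j
  have := dp _ (pp a1 j1 j2)
  have := dp _ (pp (pp a1 j1 j2) (x i.2.1) (jw w i _ j).symm)
  exact ⟨⟨j2, jw w i _ j, by omega⟩, fun r => mem_compl.1 q1 (r ▸ j1)⟩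

omit hG hT e in
theorem ctwo (h : X.Nonempty) : 2 ≤ #X := by
  obtain ⟨a, h⟩ := h
  have := hu a
  have := hX.dg h
  have := card_add_card_compl X
  omega

theorem twoc (h2 : #Xᶜ = 2) (hc : c ∈ X) : GD G k := by
  have hn := card_add_card_compl X
  obtain ⟨w, w1, w2⟩ := non (hu c)
  obtain ⟨J, j1, j2, j3, j4⟩ | ⟨Q, j1, j2, j3, j4⟩ := JL hG hX hc w1 w2
  swap
  · have := card_sdiff_add_card_eq_card j1
    by_cases l : 2 * #Q ≤ #X
    · exact spec hG hu hT e hX h2 j1 j2 l j4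
    · exact spec hG hu hT e hX h2 (P := X \ Q) sdiff_subset ⟨c, mem_sdiff.2 ⟨hc, j3⟩⟩ (by omega) fun a i b j l =>
        j4 b (by simpa [(mem_sdiff.1 j).1] using (mem_sdiff.1 j).2) a i l.symm
  have hJ : Cmp G J := fun a i b j => if z : b ∈ X then j4 a i b (mem_sdiff.2 ⟨z, j⟩) else hX a (j1 i) b z
  have hK : Cmp G (X \ J) := fun a i b j => if z : b ∈ X then (j4 b (by simpa [z] using j) a i).symm
    else hX a (mem_sdiff.1 i).1 b z
  have := card_sdiff_add_card_eq_card j1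
  have := ctwo hu hJ j2
  have := ctwo hu hK ⟨c, mem_sdiff.2 ⟨hc, j3⟩⟩
  have := card_add_card_compl J
  have := card_add_card_compl (X \ J)
  by_cases l : 3 ≤ #J
  · exact both hG hu hT e hJ l (by omega)
  by_cases m : 3 ≤ #(X \ J)
  · exact both hG hu hT e hK m (by omega)
  have d4 : ∀ v, dg G v = 4 := fun v => by
    have := hu v
    by_cases i : v ∈ J
    · have := hJ.dg i; omega
    by_cases j : v ∈ X
    · have := hK.dg (mem_sdiff.2 ⟨j, i⟩); omega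
    · have := hX.co.dg (mem_compl.2 j); rw [compl_compl] at this; omega
  obtain ⟨r, hr⟩ := centroid hT.2 fun _ => 1
  have hB := hT.br e r
  obtain ⟨v, v1, v2⟩ := non (hu r)
  obtain ⟨p, p1, p2⟩ := hB.top v v1
  have c1 := one_lt_card.2 ⟨v, hB.mem v, p, p1, fun z => v2 (z ▸ p2)⟩
  have c2 := hr v v1
  have c3 := ed_dg (G := G) (brn T r v)
  have c4 := sum_le_sum fun a (i : a ∈ brn T r v) => nb_lt (G := G) i
  have c5 := hB.cut v v1
  simp only [d4, sum_const, smul_eq_mul, mul_one, card_univ, sum_add_distrib] at c2 c3 c4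
  obtain ⟨b, hb⟩ := card_pos.1 (show 0 < #Xᶜ by omega)
  have : 6 ≤ k := by
    unfold ed at c3 c5
    obtain z | z : #(brn T r v) = 2 ∨ #(brn T r v) = 3 := by omega
    all_goals rw [z] at c3 c4; omega
  exact Sp.gd ⟨c, sc hu (by rw [d4]; omega) w1 w2 (hX w (by_contra fun n => w2 (hX c hc w n)) b (mem_compl.1 hb))
    (by rw [d4, d4]; omega) (by omega)⟩

omit hu hX in
theorem gd : GD G k := by
  by_cases hu : ∀ v, dg G v + 2 ≤ Fintype.card V
  · obtain ⟨c⟩ := hT.2.1.nonempty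
    obtain ⟨w, w1, w2⟩ := non (hu c)
    obtain ⟨J, -, j2, j3, j4⟩ | ⟨Q, -, ⟨a, j2⟩, j3, j4⟩ := JL (X := univ) hG (fun _ _ _ i => (i (mem_univ _)).elim)
      (mem_univ c) w1 w2
    · have hJ : Cmp G J := fun a i b j => j4 a i b (by simpa)
      have := ctwo hu hJ j2
      have := ctwo hu hJ.co ⟨c, mem_compl.2 j3⟩
      by_cases l : #Jᶜ = 2
      · exact j2.elim fun a => twoc hG hu hT e hJ l
      by_cases m : #J = 2
      · exact twoc hG hu hT e hJ.co (by rwa [compl_compl]) (mem_compl.2 j3)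
      · exact both hG hu hT e hJ (by omega) (by omega)
    · have hB := hT.br e c
      exact (hB.con a (fun z => j3 (z ▸ j2)) (· ∉ Q) (fun x _ i j => j4 x j c (by simpa) i.symm)
        (fun x _ y _ i j l => j4 y l x (by simpa) i.symm) a (hB.mem a) j2).elim
  obtain ⟨c, hc⟩ := not_forall.1 hu
  have U : ∀ v ≠ c, G.Adj c v := fun v i => by_contra fun n => by
    have := card_le_card (s := insert c (insert v (univ.filter (G.Adj c)))) (subset_univ _)
    rw [card_insert_of_notMem (by simp [i.symm]), card_insert_of_notMem (by simp [n]), card_univ] at this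
    exact hc this
  have hB := hT.br e c
  refine Sp.gd ⟨c, fun v i => ?_, id, Set.injOn_id _, fun w i j => (j (U w i)).elim⟩
  simpa using one (Z := {c}ᶜ) (P := {v}) (fun a j b l => by
    rw [show b = c by simpa using l]; exact (U a (by simpa using j)).symm) (hB.cut v i)
    (by simp [hB.nc v i]) (by simp [hB.mem v, i]) (by simp)

end Pool.Agent.H.MP_fe081e_lc
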