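import Pool.Agent.H.MP_fe081e_lc.E
import Pool.Agent.Lib.lead.CXGraphRed

namespace Pool.Agent.H.MP_fe081e_lc

open Finset SimpleGraph Pool.Agent.Lib.CX

section
open Classical
variable {V : Type} [Fintype V] {G : SimpleGraph V} {c w v p q : V} {k t : ℕ}

theorem cm_nest (hG : Cograph G) (e : Lo G c t w) (f : Lo G c t v) (h : cm G c w ≤ cm G c v) (i : G.Adj c p)
    (j : G.Adj w p) : G.Adj v p := by_contra fun n => by
  have z : Cmp G univ := fun _ _ _ i => (i (mem_univ _)).elim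
  refine h.not_gt (card_lt_card ⟨fun r l => ?_, fun l => n (mem_filter.1 (l (mem_filter.2 ⟨mem_univ _, i, j⟩))).2.2⟩)
  obtain ⟨-, l, m⟩ := mem_filter.1 l
  refine mem_filter.2 ⟨mem_univ _, l, (lv_mem z (mem_univ c) e.1 e.2.1).1 ((lv_nest hG z l i).elim (fun s => ?_) fun s => s ?_)⟩
  · exact (n ((lv_mem z (mem_univ c) f.1 f.2.1).1 (s ((lv_mem z (mem_univ c) f.1 f.2.1).2 m)))).elim
  · exact (lv_mem z (mem_univ c) e.1 e.2.1).2 j

theorem Good.ok (h : Good G k c q t) {φ π : V → V} (h1 : Set.InjOn φ {w | Lo G c t w})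
    (h2 : ∀ w, Lo G c t w → Mt G k c w (φ w) ∧ φ w ≠ q) (p1 : ∀ v, G.Adj c v → π v = c)
    (p2 : ∀ v, Hb G c t v → π v = q) (p3 : ∀ v, Lo G c t v → π v = φ v) (e : v ≠ c) :
    (G.Adj v (π v) ∧ (π v = c ∨ π (π v) = c)) ∧ ed G (univ.filter fun x => x = v ∨ x ≠ c ∧ π x = v)
      (univ.filter fun x => x = v ∨ x ≠ c ∧ π x = v)ᶜ ≤ k := by
  have tr : ∀ x ≠ c, π x = c ∧ G.Adj c x ∨ π x = q ∧ Hb G c t x ∨ π x = φ x ∧ Lo G c t x := fun x i => by
    by_cases j : G.Adj c x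
    · exact .inl ⟨p1 x j, j⟩
    · exact .inr ((lt_or_ge (cm G c x) t).imp (fun l => ⟨p2 x ⟨i, j, l⟩, i, j, l⟩) fun l => ⟨p3 x ⟨i, j, l⟩, i, j, l⟩)
  refine ⟨?_, ?_⟩
  · obtain ⟨i, j⟩ | ⟨i, j⟩ | ⟨i, j⟩ := tr v e <;> rw [i]
    exacts [⟨j.symm, .inl rfl⟩, ⟨(h.hub v j).2, .inr (p1 _ (h.hub v j).1)⟩, ⟨(h2 v j).1.2.1, .inr (p1 _ (h2 v j).1.1)⟩]
  by_cases f : v = q
  · subst f
    rw [filter_congr (q := fun x => x = v ∨ Hb G c t x) fun x _ => or_congr_right ⟨fun i => ?_, fun i => ⟨i.1, p2 x i⟩⟩]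
    · exact h.cut e
    obtain ⟨j, l⟩ | ⟨j, l⟩ | ⟨j, l⟩ := tr x i.1
    exacts [(e (i.2.symm.trans j)).elim, l, ((h2 x l).2 (j.symm.trans i.2)).elim]
  have z : ∀ x ≠ c, π x = v → φ x = v ∧ Lo G c t x := fun x i m => by
    obtain ⟨j, l⟩ | ⟨j, l⟩ | ⟨j, l⟩ := tr x i
    exacts [(e (m.symm.trans j)).elim, (f (m.symm.trans j)).elim, ⟨j ▸ m, l⟩]
  by_cases g : ∃ w, Lo G c t w ∧ φ w = v
  · obtain ⟨w, g, rfl⟩ := g
    obtain ⟨⟨-, i, j⟩, -⟩ := h2 w g
    rw [show (univ.filter fun x => x = φ w ∨ x ≠ c ∧ π x = φ w) = {φ w, w} from Finset.ext fun x => by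
      simp only [mem_filter, mem_univ, true_and, mem_insert, mem_singleton]
      exact or_congr_right ⟨fun l => h1 (z x l.1 l.2).2 g (z x l.1 l.2).1, fun l => by rw [l]; exact ⟨g.1, p3 w g⟩⟩]
    have := ed_dg (G := G) {φ w, w}
    have a : 0 < nb G {φ w, w} w := card_pos.2 ⟨φ w, by simp [i]⟩
    have b : 0 < nb G {φ w, w} (φ w) := card_pos.2 ⟨w, by simp [i.symm]⟩
    rw [sum_pair i.ne', ed.eq_1 G _ {φ w, w}, sum_pair i.ne'] at this
    omega
  · rw [show (univ.filter fun x => x = v ∨ x ≠ c ∧ π x = v) = {v} from Finset.ext fun x => by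
      simp only [mem_filter, mem_univ, true_and, mem_singleton]
      exact or_iff_left fun l => g ⟨x, (z x l.1 l.2).symm⟩]
    have := ed_dg (G := G) {v}
    have := h.dg v e
    rw [sum_singleton] at *
    omega

theorem ec_sq (T : SimpleGraph V) : ec G T ≤ Fintype.card V * Fintype.card V := ec_le.2 fun u v _ => by
  rw [cng_eq (S := univ.filter (· ∈ Side T u v)) (by simp)]
  exact (sum_le_card_nsmul _ _ _ fun _ _ => card_le_univ _).trans (Nat.mul_le_mul_right _ (card_le_univ _))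

end

theorem fd {α : Type} {l : List α} {p : α → Bool} (d : α) (h : ∃ x ∈ l, p x) :
    (l.find? p).getD d ∈ l ∧ p ((l.find? p).getD d) := by
  obtain ⟨x, e⟩ := Option.isSome_iff_exists.1 (List.find?_isSome.2 h)
  rw [e]; exact ⟨List.mem_of_find?_eq_some e, List.find?_some e⟩

theorem greedy {A : ℕ → ℕ → Prop} {d : ℕ → ℕ} {f : List (ℕ × ℕ) → ℕ → ℕ}
    (hf : ∀ s w p, A w p → p ∉ s.map Prod.snd → A w (f s w) ∧ f s w ∉ s.map Prod.snd ∧ d p ≤ d (f s w)) (L : List ℕ)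
    (hL : L.Pairwise fun w v => w ≠ v ∧ ∀ p r, A w p → A v r → d p ≤ d r → A v p) (s : List (ℕ × ℕ)) (φ : ℕ → ℕ)
    (h1 : Set.InjOn φ {w | w ∈ L}) (h2 : ∀ w ∈ L, A w (φ w) ∧ φ w ∉ s.map Prod.snd)
    (h3 : (s.map Prod.snd).Nodup ∧ ∀ z ∈ s, A z.1 z.2) {u : List (ℕ × ℕ)}
    (hu : u = L.foldl (fun s w => (w, f s w) :: s) s) :
    ((u.map Prod.snd).Nodup ∧ ∀ z ∈ u, A z.1 z.2) ∧ ∀ w, w ∈ L ∨ w ∈ s.map Prod.fst → w ∈ u.map Prod.fst := by
  induction L generalizing s φ with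
  | nil => exact hu ▸ ⟨h3, by simp⟩
  | cons w L ih =>
    obtain ⟨l1, l2⟩ := List.pairwise_cons.1 hL
    have m := List.mem_cons_self (a := w) (l := L)
    have n : ∀ {v}, v ∈ L → v ∈ w :: L := List.mem_cons_of_mem _
    obtain ⟨f1, f2, f3⟩ := hf s w _ (h2 w m).1 (h2 w m).2
    have := ih l2 ((w, f s w) :: s) (fun v => if φ v = f s w then φ w else φ v) (fun x i y j l => ?_) (fun v i => ?_)
      ⟨List.nodup_cons.2 ⟨f2, h3.1⟩, List.forall_mem_cons.2 ⟨f1, h3.2⟩⟩ hu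
    · exact ⟨this.1, fun v i => this.2 v (by simp only [List.map_cons, List.mem_cons] at i ⊢; tauto)⟩
    · have := mt (h1 m (n i)) (l1 x i).1
      have := mt (h1 m (n j)) (l1 y j).1
      have := @h1 x (n i) y (n j)
      grind
    · have := mt (h1 m (n i)) (l1 v i).1
      have := h2 v (n i)
      have := h2 w m
      have := (l1 v i).2 (φ w) (φ v)
      simp only [List.map_cons, List.mem_cons]
      grind

abbrev Pa := ℕ × ℕ × ℕ × ℕ

def dN (a : Gr) (v : ℕ) : ℕ := (List.range a.n).countP (a.adjB v)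
def cN (a : Gr) (c w : ℕ) : ℕ := (List.range a.n).countP fun p => a.adjB c p && a.adjB w p
def al (a : Gr) (z : Pa) (w p : ℕ) : Bool :=
  decide ((a.adjB z.2.1 p ∧ a.adjB w p ∧ dN a w + dN a p ≤ z.1 + 2) ∧ p ≠ z.2.2.1)
def pk (a : Gr) (z : Pa) (s : List (ℕ × ℕ)) (w : ℕ) : ℕ := ((List.range a.n).find? fun p =>
  decide (al a z w p ∧ p ∉ s.map Prod.snd ∧ ∀ r < a.n, al a z w r → r ∉ s.map Prod.snd → dN a r ≤ dN a p)).getD 0
def lo (a : Gr) (z : Pa) (w : ℕ) : Bool := decide (w ≠ z.2.1 ∧ ¬ a.adjB z.2.1 w ∧ z.2.2.2 ≤ cN a z.2.1 w)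
def ord (a : Gr) (z : Pa) : List ℕ :=
  (List.range (a.n + 1)).flatMap fun i => (List.range a.n).filter fun w => decide (lo a z w ∧ cN a z.2.1 w = i)
def gr (a : Gr) (z : Pa) : List (ℕ × ℕ) := (ord a z).foldl (fun s w => (w, pk a z s w) :: s) []
def par (a : Gr) (z : Pa) (v : ℕ) : ℕ := (if a.adjB z.2.1 v then z.2.1 else if cN a z.2.1 v < z.2.2.2 then z.2.2.1 else
  (((gr a z).find? fun y => decide (y.1 = v)).getD (0, 0)).2) % a.n
def ins (a : Gr) (z : Pa) (v x : ℕ) : Bool := decide (x = v ∨ x ≠ z.2.1 ∧ par a z x = v)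
def cut (a : Gr) (z : Pa) (v : ℕ) : ℕ := ((List.range a.n).map fun x =>
  if ins a z v x then (List.range a.n).countP fun y => !ins a z v y && a.adjB x y else 0).sum
def chk (a : Gr) (z : Pa) : Bool := decide (∀ v < a.n, v ≠ z.2.1 →
  (a.adjB v (par a z v) ∧ (par a z v = z.2.1 ∨ par a z (par a z v) = z.2.1)) ∧ cut a z v ≤ z.1)
def cs (a : Gr) : List Pa := List.range (a.n * a.n + 1) ×ˢ List.range a.n ×ˢ List.range a.n ×ˢ List.range 4
def bst (a : Gr) : Pa := ((cs a).find? fun z => decide (chk a z ∧ ∀ y ∈ cs a, chk a y → z.1 ≤ y.1)).getD (0, 0, 0, 0)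
def alg (a : Gr) : List (ℕ × ℕ) :=
  ((List.range a.n).filter fun v => decide (v ≠ (bst a).2.1)).map fun v => (v, par a (bst a) v)

section
variable {α : Type} [Enc α] {a : α → Gr} {z : α → Pa} {x y : α → ℕ} {s : α → List (ℕ × ℕ)}

@[fun_prop] theorem PT.dN (ha : PT a) (hx : PT x) : PT fun i => dN (a i) (x i) := by
  unfold MP_fe081e_lc.dN; fun_prop
@[fun_prop] theorem PT.cN (ha : PT a) (hx : PT x) (hy : PT y) : PT fun i => cN (a i) (x i) (y i) := by
  unfold MP_fe081e_lc.cN; fun_prop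
@[fun_prop] theorem PT.al (ha : PT a) (hz : PT z) (hx : PT x) (hy : PT y) : PT fun i => al (a i) (z i) (x i) (y i) := by
  unfold MP_fe081e_lc.al; fun_prop
@[fun_prop] theorem PT.pk (ha : PT a) (hz : PT z) (hs : PT s) (hx : PT x) : PT fun i => pk (a i) (z i) (s i) (x i) := by
  unfold MP_fe081e_lc.pk; fun_prop
@[fun_prop] theorem PT.lo (ha : PT a) (hz : PT z) (hx : PT x) : PT fun i => lo (a i) (z i) (x i) := by
  unfold MP_fe081e_lc.lo; fun_prop
@[fun_prop] theorem PT.ord (ha : PT a) (hz : PT z) : PT fun i => ord (a i) (z i) := by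
  unfold MP_fe081e_lc.ord; fun_prop

theorem mem_ord {a : Gr} {z : Pa} {w : ℕ} : w ∈ ord a z ↔ w < a.n ∧ lo a z w := by
  have : cN a z.2.1 w ≤ a.n := List.countP_le_length.trans (by simp)
  simp [ord, this]

theorem pk_le (a : Gr) z s w : pk a z s w ≤ a.n := by
  unfold pk
  rcases h : (List.range a.n).find? _ with _ | p
  exacts [Nat.zero_le _, (List.mem_range.1 (List.mem_of_find?_eq_some h)).le]

@[fun_prop] theorem PT.gr (ha : PT a) (hz : PT z) : PT fun i => gr (a i) (z i) :=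
  PT.foldl_add (D := fun i => 2 * size (a i).n + 2) (by fun_prop) (by fun_prop) (by fun_prop) (by fun_prop)
    fun i s w e => by
      have := size_nat_mono (mem_ord.1 e).1.le
      have := size_nat_mono (pk_le (a i) (z i) s w)
      rw [size_cons, size_pair]; omega
@[fun_prop] theorem PT.par (ha : PT a) (hz : PT z) (hx : PT x) : PT fun i => par (a i) (z i) (x i) := by
  unfold MP_fe081e_lc.par; fun_prop
@[fun_prop] theorem PT.ins (ha : PT a) (hz : PT z) (hx : PT x) (hy : PT y) : PT fun i => ins (a i) (z i) (x i) (y i) := by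
  unfold MP_fe081e_lc.ins; fun_prop
@[fun_prop] theorem PT.cut (ha : PT a) (hz : PT z) (hx : PT x) : PT fun i => cut (a i) (z i) (x i) := by
  unfold MP_fe081e_lc.cut; fun_prop
@[fun_prop] theorem PT.chk (ha : PT a) (hz : PT z) : PT fun i => chk (a i) (z i) := by
  unfold MP_fe081e_lc.chk; fun_prop
@[fun_prop] theorem PT.cs (ha : PT a) : PT fun i => cs (a i) := by
  unfold MP_fe081e_lc.cs; fun_prop
@[fun_prop] theorem PT.bst (ha : PT a) : PT fun i => bst (a i) := by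
  unfold MP_fe081e_lc.bst; fun_prop
theorem PT.alg : PT alg := by
  unfold MP_fe081e_lc.alg; fun_prop
end

end Pool.Agent.H.MP_fe081e_lc
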