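import Pool.Agent.H.MP_fe081e_lc.F

namespace Pool.Agent.H.MP_fe081e_lc

open Finset SimpleGraph Pool.Agent.Lib.CX Classical

noncomputable def ct {V : Type} [Fintype V] (G : SimpleGraph V) (c : V) (π : V → V) (v : V) : ℕ :=
  ed G (univ.filter fun x => x = v ∨ x ≠ c ∧ π x = v) (univ.filter fun x => x = v ∨ x ≠ c ∧ π x = v)ᶜ

theorem ct_eq {V : Type} [Fintype V] {G : SimpleGraph V} {c v : V} {π : V → V} {P : V → Prop} {f : V → ℕ}
    [DecidablePred P] (h : ∀ x, P x ↔ x = v ∨ x ≠ c ∧ π x = v)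
    (g : ∀ x, ∀ S : Finset V, (∀ y, y ∈ S ↔ ¬ P y ∧ G.Adj x y) → f x = #S) : ct G c π v = ∑ x, if P x then f x else 0 := by
  rw [ct, ed, sum_filter]
  exact sum_congr rfl fun x _ => if_congr (h x).symm (g x _ fun y => by simp [h]).symm rfl

variable {a : Gr} {k t : ℕ} {c q v w p : Fin a.n}

theorem sum_eq {n : ℕ} (f : ℕ → ℕ) : ((List.range n).map f).sum = ∑ x : Fin n, f x := by
  rw [Fin.sum_univ_eq_sum_range]; rfl

theorem cnt_eq {n : ℕ} {f : ℕ → Bool} {S : Finset (Fin n)} (h : ∀ x, x ∈ S ↔ f x) : (List.range n).countP f = #S := by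
  rw [show S = univ.filter fun x : Fin n => f x = true from Finset.ext (by simpa), card_filter,
    ← sum_eq fun x => if f x then 1 else 0]
  induction List.range n with
  | nil => rfl
  | cons x l ih => rw [List.countP_cons, ih, List.map_cons, List.sum_cons, add_comm]

theorem dN_eq : dN a v = dg a.G v := cnt_eq (by simp [Gr.adjB_iff])
theorem cN_eq : cN a c w = cm a.G c w := cnt_eq (by simp [Gr.adjB_iff])
theorem lo_iff : lo a (k, c, q, t) w ↔ Lo a.G c t w := by simp [lo, Lo, ← cN_eq, ← Gr.adjB_iff, Fin.ext_iff]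
theorem al_iff : al a (k, c, q, t) w p ↔ Mt a.G k c w p ∧ p ≠ q := by
  simp [al, Mt, ← dN_eq, ← Gr.adjB_iff, Fin.ext_iff]
theorem al_lt {z : Pa} {w p : ℕ} (h : al a z w p) : p < a.n := by
  simp only [al, Gr.adjB, decide_eq_true_eq] at h
  exact h.1.1.2.1

def pf (a : Gr) (z : Pa) (v : Fin a.n) : Fin a.n := ⟨par a z v, Nat.mod_lt _ v.pos⟩

theorem chk_iff {q : ℕ} : chk a (k, c, q, t) ↔ ∀ v ≠ c, (a.G.Adj v (pf a (k, c, q, t) v) ∧ (pf a (k, c, q, t) v = c ∨
    pf a (k, c, q, t) (pf a (k, c, q, t) v) = c)) ∧ ct a.G c (pf a (k, c, q, t)) v ≤ k := by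
  have : ∀ v : Fin a.n, ct a.G c (pf a (k, c, q, t)) v = cut a (k, c, q, t) v := fun v => by
    rw [cut, sum_eq]
    exact ct_eq (by simp [ins, pf, Fin.ext_iff]) fun x S h => cnt_eq fun y => by simp [h, Gr.adjB_iff]
  simp only [this]
  simp only [chk, decide_eq_true_eq, ← Gr.adjB_iff, Fin.ext_iff, Fin.forall_iff, pf, Ne]

theorem Good.chk (hG : Cograph a.G) (h : Good a.G k c q t) : chk a (k, c, q, t) := by
  obtain ⟨φ, h1, h2⟩ := h.mt
  have m : ∀ {w}, w ∈ ord a (k, c, q, t) → ∃ v : Fin a.n, v = w ∧ Lo a.G c t v := fun e =>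
    ⟨⟨_, (mem_ord.1 e).1⟩, rfl, lo_iff.1 (mem_ord.1 e).2⟩
  obtain ⟨⟨g1, g2⟩, g3⟩ := greedy (A := fun w p => al a (k, c, q, t) w p) (d := dN a) (f := pk a (k, c, q, t))
    (fun s w p i j => by
      obtain ⟨r, l, o⟩ := exists_max_image ((range a.n).filter fun r => al a (k, c, q, t) w r ∧ r ∉ s.map Prod.snd) (dN a)
        ⟨p, mem_filter.2 ⟨mem_range.2 (al_lt i), i, j⟩⟩
      simp only [mem_filter, mem_range] at l o
      have := (fd (l := List.range a.n) (p := fun p => decide (al a (k, c, q, t) w p ∧ p ∉ s.map Prod.snd ∧ ∀ r < a.n,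
        al a (k, c, q, t) w r → r ∉ s.map Prod.snd → dN a r ≤ dN a p)) 0 ⟨r, List.mem_range.2 l.1,
          decide_eq_true ⟨l.2.1, l.2.2, fun x b d e => o x ⟨b, d, e⟩⟩⟩).2
      rw [decide_eq_true_eq] at this
      exact ⟨this.1, this.2.1, this.2.2 p (al_lt i) i j⟩)
    (ord a (k, c, q, t)) (by
      have : (ord a (k, c, q, t)).Pairwise fun w v => w ≠ v ∧ cN a c w ≤ cN a c v := by
        refine List.pairwise_flatMap.2 ⟨fun i _ => List.pairwise_filter.2 (List.nodup_range.imp ?_),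
          List.pairwise_lt_range.imp ?_⟩
        · intro x y e f g
          simp only [decide_eq_true_eq] at f g
          exact ⟨e, by omega⟩
        · intro i j e x f y g
          simp only [List.mem_filter, decide_eq_true_eq] at f g
          exact ⟨by rintro rfl; omega, by omega⟩
      refine this.imp_of_mem fun {x y} e f g => ⟨g.1, fun p r i j l => ?_⟩
      obtain ⟨x, rfl, e'⟩ := m e
      obtain ⟨y, rfl, f'⟩ := m f
      lift p to Fin a.n using al_lt i
      lift r to Fin a.n using al_lt j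
      rw [al_iff] at *
      rw [dN_eq, dN_eq] at l
      rw [cN_eq, cN_eq] at g
      exact ⟨⟨i.1.1, cm_nest hG e' f' g.2 i.1.1 i.1.2.1, by have := j.1.2.2; omega⟩, i.2⟩)
    [] (fun x => if e : x < a.n then φ ⟨x, e⟩ else 0) (fun x e y f g => by
      obtain ⟨x, rfl, e'⟩ := m e
      obtain ⟨y, rfl, f'⟩ := m f
      simp only [Fin.is_lt, dif_pos, Fin.eta] at g
      rw [h1 e' f' (Fin.ext g)]) (fun x e => by
      obtain ⟨x, rfl, e'⟩ := m e
      simpa [al_iff] using h2 x e') (by simp) (u := gr a (k, c, q, t)) rfl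
  have g4 : ∀ v, Lo a.G c t v → (v.1, (pf a (k, c, q, t) v).1) ∈ gr a (k, c, q, t) := fun v e => by
    obtain ⟨y, i, j⟩ := List.mem_map.1 (g3 v (.inl (mem_ord.2 ⟨v.2, lo_iff.2 e⟩)))
    obtain ⟨i, j⟩ := fd (p := fun y => decide (y.1 = v.1)) (0, 0) ⟨y, i, decide_eq_true j⟩
    have := al_lt (g2 _ i)
    simp only [pf, par, Gr.adjB_iff, e.2.1, cN_eq, e.2.2.not_gt, if_false, Nat.mod_eq_of_lt this]
    generalize Option.getD _ (0, 0) = u at i j ⊢
    rwa [← of_decide_eq_true j]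
  refine chk_iff.2 fun v => h.ok (φ := pf a (k, c, q, t)) (fun x e y f g => ?_) (fun x e => al_iff.1 (g2 _ (g4 x e)))
    (fun x e => ?_) (fun x e => ?_) fun _ _ => rfl
  · exact Fin.ext (congrArg Prod.fst (List.inj_on_of_nodup_map g1 (g4 x e) (g4 y f) (congrArg Fin.val g)))
  · simp [pf, par, Gr.adjB_iff, e, Nat.mod_eq_of_lt]
  · simp [pf, par, Gr.adjB_iff, e.2.1, e.2.2, cN_eq, Nat.mod_eq_of_lt]

theorem opt (hc : a.G.Connected) (hG : Cograph a.G) : SpTree a.G (Gr.G (a.1, alg a)) ∧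
    ∀ T, SpTree a.G T → ec a.G (Gr.G (a.1, alg a)) ≤ ec a.G T := by
  have e : ∀ T, SpTree a.G T → ∃ z ∈ cs a, chk a z ∧ z.1 = ec a.G T := fun T h => by
    obtain ⟨c, q, t, i, j⟩ := gd hG h le_rfl
    have := ec_sq (G := a.G) T
    rw [Fintype.card_fin] at this
    exact ⟨_, by simp [cs, i, Nat.lt_succ_of_le this], j.chk hG, rfl⟩
  obtain ⟨T, h⟩ := hc.exists_isTree_le
  obtain ⟨y, i, j⟩ := exists_min_image ((cs a).toFinset.filter fun z => chk a z) (·.1)
    ((e T h).imp fun z i => by simp [i.1, i.2.1])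
  simp only [mem_filter, List.mem_toFinset] at i j
  obtain ⟨m, l⟩ := fd (p := fun z => decide (chk a z ∧ ∀ y ∈ cs a, chk a y → z.1 ≤ y.1)) (0, 0, 0, 0)
    ⟨y, i.1, decide_eq_true ⟨i.2, fun z b d => j z ⟨b, d⟩⟩⟩
  rw [decide_eq_true_eq] at l
  unfold alg
  change bst a ∈ _ at m
  change chk a (bst a) ∧ ∀ y ∈ cs a, chk a y → (bst a).1 ≤ y.1 at l
  generalize bst a = z at m l
  obtain ⟨k, c, q, t⟩ := z
  lift c to Fin a.n using by simp [cs] at m; omega
  have o := chk_iff.1 l.1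
  obtain ⟨r, s⟩ := depth2 (T := Gr.G (a.1, ((List.range a.n).filter fun v => decide (v ≠ c.1)).map fun v =>
    (v, par a (k, c, q, t) v))) _ (fun v e => (o v e).1) (fun u v => by
      have := fun v e => (o v e).1.1.ne
      simp only [Gr.G, fromRel_adj, List.mem_map, List.mem_filter, List.mem_range, decide_eq_true_eq, Prod.mk.injEq,
        pf, Fin.ext_iff, Ne, Fin.forall_iff] at this ⊢
      have := u.2
      have := v.2
      grind) fun v e => (o v e).2
  exact ⟨r, fun T h => (e T h).elim fun z b => s.trans (b.2.2 ▸ l.2 z b.1 b.2.1)⟩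

end Pool.Agent.H.MP_fe081e_lc
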